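import Pool.Agent.Helper14.LK.Defs

/-!
Project LK (MP_58b586_gt): basic lemmas about `om`, `ip`, `nm`, `JJ`.
-/

set_option autoImplicit false

open MeasureTheory
open scoped ContDiff

namespace Pool.Agent.Helper14.LK

variable {n : ℕ}

/-- the symplectic form as a continuous bilinear map -/
noncomputable def omL (n : ℕ) : WW n →L[ℝ] WW n →L[ℝ] ℝ :=
  (innerSL ℝ).bilinearComp (ContinuousLinearMap.fst ℝ (EE n) (EE n))
    (ContinuousLinearMap.snd ℝ (EE n) (EE n)) -
  (innerSL ℝ).bilinearComp (ContinuousLinearMap.snd ℝ (EE n) (EE n))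
    (ContinuousLinearMap.fst ℝ (EE n) (EE n))

@[simp] theorem omL_apply (a b : WW n) : omL n a b = om a b := by
  simp [omL, om]

@[simp] theorem JJ_apply (a : WW n) : JJ a = (-a.2, a.1) := by
  simp [JJ]

theorem om_add_left (a b c : WW n) : om (a + b) c = om a c + om b c := by
  simp [om, inner_add_left]; ring

theorem om_add_right (a b c : WW n) : om a (b + c) = om a b + om a c := by
  simp [om, inner_add_right]; ring

theorem om_sub_left (a b c : WW n) : om (a - b) c = om a c - om b c := by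
  simp [om, inner_sub_left]; ring

theorem om_sub_right (a b c : WW n) : om a (b - c) = om a b - om a c := by
  simp [om, inner_sub_right]; ring

theorem om_smul_left (t : ℝ) (a b : WW n) : om (t • a) b = t * om a b := by
  simp [om, real_inner_smul_left]; ring

theorem om_smul_right (t : ℝ) (a b : WW n) : om a (t • b) = t * om a b := by
  simp [om, real_inner_smul_right]; ring

theorem om_neg_left (a b : WW n) : om (-a) b = - om a b := by
  simp [om]; ring

theorem om_neg_right (a b : WW n) : om a (-b) = - om a b := by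
  simp [om]; ring

@[simp] theorem om_zero_left (b : WW n) : om 0 b = 0 := by simp [om]

@[simp] theorem om_zero_right (b : WW n) : om b 0 = 0 := by simp [om]

theorem om_antisymm (a b : WW n) : om a b = - om b a := by
  simp [om, real_inner_comm]

@[simp] theorem om_self (a : WW n) : om a a = 0 := by
  have := om_antisymm a a; linarith

theorem ip_comm (a b : WW n) : ip a b = ip b a := by
  simp [ip, real_inner_comm]

theorem om_JJ_right (a b : WW n) : om a (JJ b) = ip a b := by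
  simp [om, ip]

theorem om_JJ_left (a b : WW n) : om (JJ a) b = - ip a b := by
  rw [om_antisymm, om_JJ_right, ip_comm]

theorem om_JJ_JJ (a b : WW n) : om (JJ a) (JJ b) = om a b := by
  simp [om]; ring

theorem ip_self (a : WW n) : ip a a = ‖a.1‖ ^ 2 + ‖a.2‖ ^ 2 := by
  simp [ip]

theorem nm_sq (a : WW n) : nm a ^ 2 = ‖a.1‖ ^ 2 + ‖a.2‖ ^ 2 := by
  unfold nm; rw [Real.sq_sqrt (by positivity)]

theorem nm_nonneg (a : WW n) : 0 ≤ nm a := Real.sqrt_nonneg _

theorem ip_self_eq (a : WW n) : ip a a = nm a ^ 2 := by rw [ip_self, nm_sq]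

theorem norm_le_nm (a : WW n) : ‖a‖ ≤ nm a := by
  unfold nm
  apply Real.le_sqrt_of_sq_le
  rw [Prod.norm_def]
  rcases le_total ‖a.1‖ ‖a.2‖ with h | h
  · rw [max_eq_right h]; nlinarith [sq_nonneg ‖a.1‖]
  · rw [max_eq_left h]; nlinarith [sq_nonneg ‖a.2‖]

theorem nm_le (a : WW n) : nm a ≤ 2 * ‖a‖ := by
  have h1 : ‖a.1‖ ≤ ‖a‖ := norm_fst_le a
  have h2 : ‖a.2‖ ≤ ‖a‖ := norm_snd_le a
  unfold nm
  apply Real.sqrt_le_iff.2
  refine ⟨by positivity, ?_⟩
  nlinarith [norm_nonneg a.1, norm_nonneg a.2]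

theorem nm_eq_zero {a : WW n} (h : nm a = 0) : a = 0 := by
  have := norm_le_nm a
  rw [h] at this
  exact norm_le_zero_iff.1 this

theorem nm_smul (t : ℝ) (a : WW n) : nm (t • a) = |t| * nm a := by
  unfold nm
  simp only [Prod.smul_fst, Prod.smul_snd, norm_smul, Real.norm_eq_abs]
  rw [show (|t| * ‖a.1‖) ^ 2 + (|t| * ‖a.2‖) ^ 2 = |t| ^ 2 * (‖a.1‖ ^ 2 + ‖a.2‖ ^ 2) by ring,
    Real.sqrt_mul (by positivity), Real.sqrt_sq (abs_nonneg t)]

theorem abs_ip_le (a b : WW n) : |ip a b| ≤ nm a * nm b := by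
  have h1 : |inner ℝ a.1 b.1| ≤ ‖a.1‖ * ‖b.1‖ := abs_real_inner_le_norm _ _
  have h2 : |inner ℝ a.2 b.2| ≤ ‖a.2‖ * ‖b.2‖ := abs_real_inner_le_norm _ _
  have h3 : |ip a b| ≤ ‖a.1‖ * ‖b.1‖ + ‖a.2‖ * ‖b.2‖ := (abs_add_le _ _).trans (add_le_add h1 h2)
  refine h3.trans ?_
  apply le_of_sq_le_sq _ (mul_nonneg (nm_nonneg a) (nm_nonneg b))
  rw [mul_pow, nm_sq, nm_sq]
  nlinarith [sq_nonneg (‖a.1‖ * ‖b.2‖ - ‖a.2‖ * ‖b.1‖)]

theorem nm_JJ (a : WW n) : nm (JJ a) = nm a := by
  unfold nm; simp [add_comm]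

theorem abs_om_le (a b : WW n) : |om a b| ≤ nm a * nm b := by
  have h : om a b = - ip a (JJ b) := by simp [om, ip]; ring
  rw [h, abs_neg]
  have := abs_ip_le a (JJ b)
  rwa [nm_JJ] at this

theorem abs_om_le_norm (a b : WW n) : |om a b| ≤ 4 * ‖a‖ * ‖b‖ := by
  refine (abs_om_le a b).trans ?_
  have h1 := nm_le a
  have h2 := nm_le b
  calc nm a * nm b ≤ (2 * ‖a‖) * (2 * ‖b‖) := by
        apply mul_le_mul h1 h2 (nm_nonneg b) (by positivity)
    _ = 4 * ‖a‖ * ‖b‖ := by ring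

theorem nm_triangle (a b : WW n) : nm (a + b) ≤ nm a + nm b := by
  apply le_of_sq_le_sq _ (add_nonneg (nm_nonneg a) (nm_nonneg b))
  have h1 : nm (a + b) ^ 2 = nm a ^ 2 + 2 * ip a b + nm b ^ 2 := by
    rw [nm_sq, nm_sq, nm_sq, Prod.fst_add, Prod.snd_add, norm_add_sq_real, norm_add_sq_real]
    unfold ip; ring
  have h2 := (le_abs_self _).trans (abs_ip_le a b)
  rw [h1]; nlinarith

theorem nm_sub_comm (a b : WW n) : nm (a - b) = nm (b - a) := by
  unfold nm; simp [norm_sub_rev]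

theorem om_pos_self {a : WW n} (h : a ≠ 0) : 0 < om a (JJ a) := by
  rw [om_JJ_right, ip_self_eq]
  have : nm a ≠ 0 := fun h' => h (nm_eq_zero h')
  have h2 := nm_nonneg a
  positivity

/-- `om` is nondegenerate -/
theorem eq_of_om_eq {a b : WW n} (h : ∀ c, om a c = om b c) : a = b := by
  by_contra hne
  have h1 : a - b ≠ 0 := sub_ne_zero.2 hne
  have h2 := om_pos_self h1
  rw [om_sub_left, h, sub_self] at h2
  exact lt_irrefl _ h2

end Pool.Agent.Helper14.LK
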