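import Pool.Agent.Helper14.LK.Defs

/-!
Project LK (MP_58b586_gt): statements of the modules.
-/

set_option autoImplicit false

open MeasureTheory
open scoped ContDiff

namespace Pool.Agent.Helper14.LK

/-! ### Part 0: analysis tools -/

/-- PAR (about 120 lines): smoothness of integrals over a compact set depending on a parameter.
PROOF.  It is enough to treat `ContDiff ℝ k` for all `k : ℕ`, by induction on `k`, for all `G` (finite dimensional, so `P →L[ℝ] G` is again allowed).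
`f` continuous gives `p ↦ ∫ z in K₀, f p z` continuous (`continuous_parametric_integral_of_continuous` or dominated convergence: on `closedBall p₀ 1 × K₀`
`f` is bounded).  Derivative: `hasFDerivAt_integral_of_dominated_of_fderiv_le` with `F' p z = fderiv ℝ (fun q => f q z) p`, which is the composition of
`fderiv ℝ (uncurry f) (p, z)` with `ContinuousLinearMap.inl`, hence jointly smooth, hence bounded on `closedBall p₀ 1 × K₀`; `μ K₀ < ∞`.  So the
derivative is the integral of the smooth family `F'`, and the induction applies (`contDiff_succ_iff_fderiv`).  Evaluate at `v` with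
`ContinuousLinearMap.integral_apply`.  (Earlier code of the team of the same kind: Pool/Agent/Helper29/LH/M_PL.lean.) -/
def StPAR : Prop := ∀ (K P G : Type) [NormedAddCommGroup K] [NormedSpace ℝ K] [FiniteDimensional ℝ K]
  [MeasurableSpace K] [BorelSpace K] [NormedAddCommGroup P] [NormedSpace ℝ P] [FiniteDimensional ℝ P]
  [NormedAddCommGroup G] [NormedSpace ℝ G] [FiniteDimensional ℝ G] (μ : Measure K)
  [IsLocallyFiniteMeasure μ] (K₀ : Set K), IsCompact K₀ → ∀ f : P → K → G,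
  ContDiff ℝ ∞ (Function.uncurry f) →
  ContDiff ℝ ∞ (fun p => ∫ z in K₀, f p z ∂μ) ∧
  ∀ p v, fderiv ℝ (fun p => ∫ z in K₀, f p z ∂μ) p v = ∫ z in K₀, fderiv ℝ (fun q => f q z) p v ∂μ

/-- NEM (about 120 lines): the superposition operator of a smooth map is smooth on `C([0,1], E)`.
PROOF.  Induction on `k` (all `F` at once): `N_W γ = W ∘ γ` is `ContDiff ℝ k`.  It is continuous (`ContinuousMap.continuous_postcomp`).
It has the derivative `η ↦ (t ↦ DW(γ t) (η t))` at `γ`: by compactness of `γ([0,1])` and continuity of `DW` (Heine type lemma: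
`IsCompact.uniformContinuousAt_of_continuousAt`, see hunif in Pool/Agent/Helper79/Engel/Variation.lean) for every `ε` there is `δ` with
`‖W (γ t + h) - W (γ t) - DW(γ t) h‖ ≤ ε ‖h‖` for all `t` and `‖h‖ < δ`.  This derivative is `B (N_{DW} γ)` with the continuous linear map
`B : C([0,1], E →L[ℝ] F) →L[ℝ] (C([0,1], E) →L[ℝ] C([0,1], F))`, `B L η = (t ↦ L t (η t))` (`LinearMap.mkContinuous₂`, bound 1), so it is
`ContDiff ℝ k` by induction (`contDiff_succ_iff_fderiv`).  If `E` finite dimensional is not needed, do not use it. -/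
def StNEM : Prop := ∀ (E F : Type) [NormedAddCommGroup E] [NormedSpace ℝ E] [FiniteDimensional ℝ E]
  [NormedAddCommGroup F] [NormedSpace ℝ F] (W : E → F) (hW : ContDiff ℝ ∞ W),
  ContDiff ℝ ∞ (fun γ : C(unitInterval, E) =>
    (⟨fun t => W (γ t), hW.continuous.comp γ.continuous⟩ : C(unitInterval, F)))

/-- FLB (about 250 lines): the flow of a smooth globally Lipschitz autonomous vector field exists and is smooth.
PROOF.  Let `X = C([0,1], E)`, `T = 1 / (2 (K + 1))`.  For `|t| ≤ T` and `x : E` the map `γ ↦ x + t ∫₀^· W(γ)` is a contraction of `X`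
(constant `1/2`), let `γ_{t,x}` be its fixed point (`ContractingWith`).  The map `f ((t,x), γ) = γ - x - t J (N_W γ)` with `J η = ∫₀^· η` (continuous linear,
norm at most 1) is smooth by StNEM, its derivative in `γ` is `id - t J (DW(γ) ·)`, invertible since the second term has norm at most `1/2`
(`ContinuousLinearEquiv` from Neumann series: `ContinuousLinearMap.isInvertible` / `Units.oneSub`).  Implicit function theorem (`ContDiffAt.implicitFunction`,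
`ContDiffAt.contDiffAt_implicitFunction`, `ContDiffAt.eventually_apply_eq_iff_implicitFunction` in Mathlib/Analysis/Calculus/ImplicitContDiff.lean,
Banach spaces) and uniqueness of the fixed point: `(t,x) ↦ γ_{t,x}` is smooth for `|t| < T`.  `Ψ t x = γ_{t,x}(1)` is smooth (evaluation at 1 is
continuous linear), and `γ_{t,x}(s) = Ψ (s t) x` by uniqueness (rescaling), so `Ψ` solves the equation for `|t| < T`
(`γ_{t,x}` has derivative `t W(γ)` in `s`; at `t = 0`: derivative `W x`).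
Global: alternatively first take the global solutions (Picard-Lindelöf in Mathlib for globally Lipschitz fields; compare
exists_flow in Pool/Agent/Helper84/TM_FB.lean) and ODE uniqueness (`ODE_solution_unique_univ`), which give the group law
`Ψ (s + t) x = Ψ s (Ψ t x)`; then `Ψ t = (Ψ (t/m))^m` shows that `Ψ` is smooth on `|t| < m T` for every `m`, hence everywhere. -/
def StFLB : Prop := ∀ (E : Type) [NormedAddCommGroup E] [NormedSpace ℝ E] [FiniteDimensional ℝ E]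
  (W : E → E), ContDiff ℝ ∞ W → (∃ K : NNReal, LipschitzWith K W) →
  ∃ Ψ : ℝ → E → E, ContDiff ℝ ∞ (Function.uncurry Ψ) ∧ (∀ x, Ψ 0 x = x) ∧
    ∀ t x, HasDerivAt (fun s => Ψ s x) (W (Ψ t x)) t

/-- FLO (about 100 lines): time dependent version, with the smooth inverse.  Hypothesis: hFLB.
PROOF.  Apply StFLB to `ℝ × E`, `W (t, x) = (1, V t x)` (Lipschitz with constant `max 0 K` or `K + 1`).  The first component of `Ψ s (t, x)` is `t + s` (unique
primitive of 1).  `Φ t x = (Ψ t (0, x)).2`, `Φi t x = (Ψ (-t) (t, x)).2`; the group law `Ψ (-t) (Ψ t z) = z` follows from uniqueness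
(`ODE_solution_unique_univ`) for the Lipschitz field `W`. -/
def StFLO : Prop := ∀ (E : Type) [NormedAddCommGroup E] [NormedSpace ℝ E] [FiniteDimensional ℝ E]
  (V : ℝ → E → E), ContDiff ℝ ∞ (Function.uncurry V) →
  (∃ K : NNReal, LipschitzWith K (Function.uncurry V)) →
  ∃ Φ Φi : ℝ → E → E, ContDiff ℝ ∞ (Function.uncurry Φ) ∧ ContDiff ℝ ∞ (Function.uncurry Φi) ∧
    (∀ x, Φ 0 x = x) ∧ (∀ t x, HasDerivAt (fun s => Φ s x) (V t (Φ t x)) t) ∧
    (∀ t x, Φ t (Φi t x) = x) ∧ (∀ t x, Φi t (Φ t x) = x)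

/-- PO0 (about 90 lines): Poincaré lemma for one-forms depending smoothly on a parameter.  Hypothesis: hPAR.
PROOF.  `h t v = ∫ s in Icc 0 1, α t (s • v) v`, smooth by StPAR with `K = ℝ`, `P = ℝ × V`.  Its derivative at `v` in direction `a` is
`∫₀¹ (s Dα(sv)[a] v + α(sv) a) ds = ∫₀¹ (s Dα(sv)[v] a + α(sv) a) ds = ∫₀¹ d/ds (s α(sv) a) ds = α(v) a` (closedness, fundamental theorem of calculus). -/
def StPO0 : Prop := ∀ (V : Type) [NormedAddCommGroup V] [NormedSpace ℝ V] [FiniteDimensional ℝ V]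
  (α : ℝ → V → (V →L[ℝ] ℝ)), ContDiff ℝ ∞ (Function.uncurry α) →
  (∀ t v a b, fderiv ℝ (α t) v a b = fderiv ℝ (α t) v b a) →
  ∃ h : ℝ → V → ℝ, ContDiff ℝ ∞ (Function.uncurry h) ∧ ∀ t v, fderiv ℝ (h t) v = α t v

/-- POI (about 120 lines): compactly supported version in dimension at least two.  Hypothesis: hPO0.
PROOF.  If `R ≤ 0` take `h = 0`.  Otherwise take `h₀` from StPO0; `h₀ t` has zero derivative on the open set `{R < ‖v‖}`, which is connected in dimension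
at least two (path connected: `isPathConnected_compl_closedBall`-type lemma if present; otherwise the complement of `{0}` is path connected,
`isPathConnected_compl_singleton_of_one_lt_rank`, and `v ↦ ((‖v‖ + R)/‖v‖) • v` is continuous from it into `{R < ‖v‖}`, so `{R < ‖v‖}` is its image of a set that is
connected; or use spheres `isConnected_sphere` and rays),
so `h₀ t` is constant there (`IsOpen.is_const_of_fderiv_eq_zero`); put `h t v = h₀ t v - h₀ t v₁` with a fixed `‖v₁‖ = R + 1`.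
On the sphere `‖v‖ = R` use continuity (or that `v` is a limit of `(1 + δ) • v`). -/
def StPOI : Prop := ∀ (V : Type) [NormedAddCommGroup V] [NormedSpace ℝ V] [FiniteDimensional ℝ V],
  2 ≤ Module.finrank ℝ V → ∀ (α : ℝ → V → (V →L[ℝ] ℝ)), ContDiff ℝ ∞ (Function.uncurry α) →
  (∀ t v a b, fderiv ℝ (α t) v a b = fderiv ℝ (α t) v b a) →
  ∀ R : ℝ, (∀ t v, R ≤ ‖v‖ → α t v = 0) →
  ∃ h : ℝ → V → ℝ, ContDiff ℝ ∞ (Function.uncurry h) ∧ (∀ t v, fderiv ℝ (h t) v = α t v) ∧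
    (∀ t v, R ≤ ‖v‖ → h t v = 0)

/-- BIJ (about 180 lines): a family of maps with injective derivative, equal to the identity outside a ball, consists of bijections with jointly
smooth inverse.
PROOF.  `D F_r(v)` is injective, hence an equivalence (finite dimension), so `F_r` is a local homeomorphism (inverse function theorem), and `F_r` is proper
(identity near infinity).  Surjective: the image is open and closed, `V` is connected.  Injective: let `Q` be the set of points with at least two preimages.  `Q` is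
open (inverse function theorem at two different preimages with disjoint neighbourhoods), `Q` is closed (two sequences of preimages stay bounded, pass to
limits by compactness; the limits differ by local injectivity), `Q` is bounded (for `‖z‖ > max R (sup of ‖F_r‖ on the ball)` every preimage has norm
at least `R`, so equals `z`).  `V` is connected and unbounded (if `V` is trivial there is nothing to do), so `Q = ∅`.
Joint smoothness of the inverse: `(r, v) ↦ (r, F_r v)` is a smooth bijection of `ℝ × V` with invertible derivative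
(`(ρ, a) ↦ (ρ, ρ ∂_r F + D F_r a)`), its inverse is continuous (open map by the inverse function theorem) and smooth by
`Homeomorph.contDiff_symm` or `ContDiffAt.to_localInverse`. -/
def StBIJ : Prop := ∀ (V : Type) [NormedAddCommGroup V] [NormedSpace ℝ V] [FiniteDimensional ℝ V]
  (F : ℝ → V → V), ContDiff ℝ ∞ (Function.uncurry F) →
  (∀ r v a, fderiv ℝ (F r) v a = 0 → a = 0) → ∀ R : ℝ, (∀ r v, R ≤ ‖v‖ → F r v = v) →
  ∃ Fi : ℝ → V → V, ContDiff ℝ ∞ (Function.uncurry Fi) ∧ (∀ r v, F r (Fi r v) = v) ∧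
    (∀ r v, Fi r (F r v) = v)

/-! ### Part II: Moser's argument -/

/-- MOS (about 200 lines): Moser's identity (for one map `F`; `β` is the time reparametrization).
PROOF.  Write `B_t(w)(p, q) = (1 - β t) om p q + β t om (DF(w) p) (DF(w) q)`, `G = G t w`, `p = DG a`, `q = DG b` (`DG = fderiv ℝ (G t) w`).
`d/dt DG a = DV(G) (DG a)` (exchange of derivatives: `G` is jointly smooth, second derivatives are symmetric).  Let `Q(t)` be the left side of the claim,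
`Q(0) = om a b`.  Then
`Q' = β' (om (DF p) (DF q) - om p q) + (1-β)(om (DV p) q + om p (DV q)) + β (om (DF DV p + D²F(V,p)) (DF q) + om (DF p) (DF DV q + D²F(V,q)))`.
Differentiate the hypothesis `B_t(w)(V, q) = - β' σ(w) q` in `w` in direction `p` (`q` fixed):
`(1-β) om (DV p) q + β (om (DF DV p + D²F(p,V)) (DF q) + om (DF V) (D²F(p,q))) = - β' (Dσ p) q`; exchange `p, q` and subtract; `D²F` is
symmetric, `om` antisymmetric, so the result is `Q' - β' (om (DF p) (DF q) - om p q) = - β' ((Dσ p) q - (Dσ q) p)`, which is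
`- β' (om (DF p) (DF q) - om p q)` by hypothesis.  So `Q' = 0`.  (`is_const_of_deriv_eq_zero`.) -/
def StMOS : Prop := ∀ (n : ℕ) (F : WW n → WW n) (σ : WW n → (WW n →L[ℝ] ℝ)) (β : ℝ → ℝ)
  (V G : ℝ → WW n → WW n), ContDiff ℝ ∞ F → ContDiff ℝ ∞ σ → ContDiff ℝ ∞ β →
  ContDiff ℝ ∞ (Function.uncurry V) → ContDiff ℝ ∞ (Function.uncurry G) →
  (∀ w, G 0 w = w) → (∀ t w, HasDerivAt (fun s => G s w) (V t (G t w)) t) →
  (∀ w a b, fderiv ℝ σ w a b - fderiv ℝ σ w b a =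
    om (fderiv ℝ F w a) (fderiv ℝ F w b) - om a b) →
  (∀ t w b, (1 - β t) * om (V t w) b + β t * om (fderiv ℝ F w (V t w)) (fderiv ℝ F w b) =
    - (deriv β t * σ w b)) →
  β 0 = 0 →
  ∀ t w a b, (1 - β t) * om (fderiv ℝ (G t) w a) (fderiv ℝ (G t) w b) +
    β t * om (fderiv ℝ F (G t w) (fderiv ℝ (G t) w a)) (fderiv ℝ F (G t w) (fderiv ℝ (G t) w b)) =
    om a b

/-- SIG (about 200 lines): the primitive `σ_r` of `F_r^* ω - ω`, corrected to vanish on the plane for `r = 0`.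
PROOF.  Let `κ : ℝ → ℝ` be smooth, `κ 0 = 1`, `κ r = 0` for `S ≤ |r|` (e.g. `1 - smoothTransition (r²/S²)`), `χ : EE n → ℝ` a smooth bump with
`χ 0 = 1` and `χ y = 0` for `‖y‖ ≥ 1` (`χ y = 1 - smoothTransition (‖y‖²)`), `f₁ (x, y) = f x * χ y`.  Define
`σ r w b = - ⟪(F r w).2, (DF_r(w) b).1⟫ + ⟪w.2, b.1⟫ - κ r * Df₁(w) b`.
Then `Dσ_r(w)[a] b = - ⟪(DF_r a).2, (DF_r b).1⟫ - ⟪(F r w).2, (D²F_r(a,b)).1⟫ + ⟪a.2, b.1⟫ - κ D²f₁(a,b)`; antisymmetrize, second derivatives are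
symmetric: `om (DF_r a) (DF_r b) - om a b`.  For `S ≤ |r|` and for `‖w‖ ≥ R + 1` we have `F_r = id` near `w` (so `DF_r(w) = id`) and `κ r = 0`
respectively `f₁ = 0` near `w`; take `R' = max R 1 + 1` (or larger).  For `r = 0`, `w = (x, 0)`, `b = (u, 0)`: `Df₁(x,0)(u,0) = Df(x) u`, and the
hypothesis on `Df` gives `0`. -/
def StSIG : Prop := ∀ (n : ℕ) (F : ℝ → WW n → WW n) (f : EE n → ℝ) (S R : ℝ), 0 < S →
  ContDiff ℝ ∞ (Function.uncurry F) → ContDiff ℝ ∞ f →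
  (∀ r w, S ≤ |r| → F r w = w) → (∀ r w, R ≤ ‖w‖ → F r w = w) → (∀ x, R ≤ ‖x‖ → f x = 0) →
  (∀ x u, fderiv ℝ f x u = - inner ℝ (F 0 (x, 0)).2 (fderiv ℝ (F 0) (x, 0) (u, 0)).1) →
  ∃ (σ : ℝ → WW n → (WW n →L[ℝ] ℝ)) (R' : ℝ), ContDiff ℝ ∞ (Function.uncurry σ) ∧
    (∀ r w a b, fderiv ℝ (σ r) w a b - fderiv ℝ (σ r) w b a =
      om (fderiv ℝ (F r) w a) (fderiv ℝ (F r) w b) - om a b) ∧
    (∀ r w, R' ≤ ‖w‖ → σ r w = 0) ∧ (∀ r w, S ≤ |r| → σ r w = 0) ∧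
    (∀ x u, σ 0 (x, 0) (u, 0) = 0)

/-- VEF (about 250 lines): Moser's vector field.
PROOF.  `β = Real.smoothTransition`: smooth, `β t = 0` for `t ≤ 0`, `β t = 1` for `t ≥ 1`, values in `[0,1]`, so `β' t = 0` for `1 ≤ |t|`.
`B(t,r,w) : WW n →L[ℝ] (WW n →L[ℝ] ℝ)`, `B a b = (1 - β t) om a b + β t om (DF_r a) (DF_r b)`, smooth in `(t, r, w)`.  `B a (JJ a) = (1 - β)(‖a.1‖² + ‖a.2‖²) + β om (DF a) (DF (JJ a)) > 0`
for `a ≠ 0`, so `B` is injective, hence invertible (equal finite dimensions).  `V t (r, w) = - β' t • B(t,r,w)⁻¹ (σ r w)` with `ContinuousLinearMap.inverse`;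
smooth by `contDiffAt_map_inverse`.  The equation is `B V = - β' σ`.  Vanishing: where `σ = 0` or `β' = 0`.
Tangency: let `(v₁, v₂) = V t (0, (x, 0))`.  For all `u`: `B ((v₁,v₂)) (u,0) = - β' σ 0 (x,0) (u,0) = 0`, and `B (v₁,0) (u,0) = 0`
(`om (v₁,0) (u,0) = 0` and the isotropy of `F 0` on the plane), so `B (0,v₂) (u,0) = 0` for all `u`; with `u = - v₂`, `(u, 0) = JJ (0, v₂)`, so `v₂ = 0`. -/
def StVEF : Prop := ∀ (n : ℕ) (F : ℝ → WW n → WW n) (σ : ℝ → WW n → (WW n →L[ℝ] ℝ)) (S R : ℝ),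
  ContDiff ℝ ∞ (Function.uncurry F) → ContDiff ℝ ∞ (Function.uncurry σ) →
  (∀ r w, R ≤ ‖w‖ → σ r w = 0) → (∀ r w, S ≤ |r| → σ r w = 0) →
  (∀ x u, σ 0 (x, 0) (u, 0) = 0) →
  (∀ r w a, a ≠ 0 → 0 < om (fderiv ℝ (F r) w a) (fderiv ℝ (F r) w (JJ a))) →
  (∀ x u v, om (fderiv ℝ (F 0) (x, 0) (u, 0)) (fderiv ℝ (F 0) (x, 0) (v, 0)) = 0) →
  ∃ (β : ℝ → ℝ) (V : ℝ → ℝ × WW n → WW n), ContDiff ℝ ∞ β ∧ β 0 = 0 ∧ β 1 = 1 ∧
    ContDiff ℝ ∞ (Function.uncurry V) ∧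
    (∀ t r w b, (1 - β t) * om (V t (r, w)) b +
      β t * om (fderiv ℝ (F r) w (V t (r, w))) (fderiv ℝ (F r) w b) = - (deriv β t * σ r w b)) ∧
    (∀ t r w, (R ≤ ‖w‖ ∨ S ≤ |r| ∨ 1 ≤ |t|) → V t (r, w) = 0) ∧
    (∀ t x, (V t (0, (x, 0))).2 = 0)

/-- HAM (about 200 lines): a smooth compactly supported symplectic isotopy of `ℝ²ⁿ` is Hamiltonian.  Hypothesis: hPOI.
PROOF.  `X r w = (∂_r Φ)(r, Φi r w)` is smooth, `α r w b = om (X r w) b`.  `∂_r Φ_r (w) = X r (Φ_r w)`, so `D(∂_r Φ_r) a = DX_r(Φ_r w) (DΦ_r a)`.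
Differentiate `om (DΦ_r a) (DΦ_r b) = om a b` in `r` (mixed second derivatives are symmetric): `om (DX a') b' + om a' (DX b') = 0` for `a' = DΦ_r a`, `b' = DΦ_r b`, and
`DΦ_r(w)` is surjective (inverse `DΦi_r`).  So `Dα_r(w)[a] b = om (DX_r a) b` is symmetric in `a, b`.  For `R ≤ ‖w‖`: `Φ r w = w` for all `r`, so `Φi r w = w` and `X r w = 0`.
StPOI with `V = WW n` (dimension `2 n ≥ 2`) gives `H` with `fderiv ℝ (H r) w b = om (X r w) b` and `H r w = 0` for `R ≤ ‖w‖`. -/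
def StHAM : Prop := ∀ (n : ℕ), 1 ≤ n → ∀ (Φ Φi : ℝ → WW n → WW n) (R : ℝ),
  ContDiff ℝ ∞ (Function.uncurry Φ) → ContDiff ℝ ∞ (Function.uncurry Φi) →
  (∀ r w, Φ r (Φi r w) = w) → (∀ r w, Φi r (Φ r w) = w) →
  (∀ r w a b, om (fderiv ℝ (Φ r) w a) (fderiv ℝ (Φ r) w b) = om a b) →
  (∀ r w, R ≤ ‖w‖ → Φ r w = w) →
  ∃ H : ℝ → WW n → ℝ, ContDiff ℝ ∞ (Function.uncurry H) ∧ (∀ r w, R ≤ ‖w‖ → H r w = 0) ∧
    ∀ r w, ∃ v : WW n, HasDerivAt (fun s => Φ s w) v r ∧ ∀ b, om v b = fderiv ℝ (H r) (Φ r w) b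

/-- TAN (about 90 lines): a flow tangent to the plane preserves the plane.  Hypothesis: hFLO.
PROOF.  `V' t x = (V t (x, 0)).1` on `EE n` is smooth and Lipschitz; StFLO gives its flow `Φ'` with inverse `Φi'`.  `t ↦ (Φ' t x, 0)` solves the equation of `G`
(`V t (Φ' t x, 0) = (V' t (Φ' t x), 0)`) with the same initial value, so `G t (x, 0) = (Φ' t x, 0)` (`ODE_solution_unique_univ`).  Hence `G t` maps the plane into the plane, and onto:
`(x, 0) = G t (Φi' t x, 0)`. -/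
def StTAN : Prop := ∀ (n : ℕ) (V G : ℝ → WW n → WW n), ContDiff ℝ ∞ (Function.uncurry V) →
  (∃ K : NNReal, LipschitzWith K (Function.uncurry V)) → (∀ w, G 0 w = w) →
  (∀ t w, HasDerivAt (fun s => G s w) (V t (G t w)) t) → (∀ t x, (V t (x, 0)).2 = 0) →
  ∀ t, G t '' Plane n = Plane n

/-- ASM (about 250 lines): the stability theorem, internal form.  Hypotheses: hFLO hPOI hBIJ hMOS hSIG hVEF hHAM hTAN.
PROOF.  (1) `α x u = - ⟪(F 0 (x,0)).2, (DF_0(x,0)(u,0)).1⟫` is closed on `EE n` by the isotropy hypothesis and symmetric second derivatives, and vanishes for `‖x‖ ≥ R`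
(there `F 0 (x,0) = (x,0)`, second component 0); StPOI (dimension `n ≥ 2`, no dependence on `t`) gives `f`.  (2) StSIG gives `σ, R'`, enlarge `R' ≥ R`; StVEF gives `β, V`.
(3) StFLO on `E = ℝ × WW n` for the field `(0, V t (r, w))` (smooth with compact support, hence Lipschitz: `ContDiff.lipschitzWith_of_hasCompactSupport`); the first component of the
flow is constant; `G t r w`, `Gi t r w` are the second components, so `G t r` solves `G' = V t (r, G)`.  (4) StMOS for every `r` at `t = 1` (`β 1 = 1`):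
`om (DF_r (DG a)) (DF_r (DG b)) = om a b`.  (5) StBIJ gives `Fi`.  `Φ r w = F r (G 1 r w)`, `Φi r w = Gi 1 r (Fi r w)`: smooth, inverse to each other, symplectic, identity for
`‖w‖ ≥ R'` (`V` vanishes there) and for `|r| ≥ S`.  (6) StHAM gives `H`.  (7) StTAN for `r = 0`: `G 1 0` maps the plane onto the plane, so `Φ 0 '' Plane n = F 0 '' Plane n`.
(8) `φ t w = Φ (S (1 - t)) w`, Hamiltonian `- S * H (S (1 - t)) w`; `φ 0 = Φ S = id`, `φ 1 = Φ 0`. -/
def StASM : Prop := ∀ (n : ℕ), 2 ≤ n → ∀ (F : ℝ → WW n → WW n) (S R : ℝ), 0 < S →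
  ContDiff ℝ ∞ (Function.uncurry F) →
  (∀ r w, S ≤ |r| → F r w = w) → (∀ r w, R ≤ ‖w‖ → F r w = w) →
  (∀ r w a, a ≠ 0 → 0 < om (fderiv ℝ (F r) w a) (fderiv ℝ (F r) w (JJ a))) →
  (∀ x u v, om (fderiv ℝ (F 0) (x, 0) (u, 0)) (fderiv ℝ (F 0) (x, 0) (v, 0)) = 0) →
  HamIsotopic (Plane n) (F 0 '' Plane n)

/-- CRI (about 90 lines): the stability theorem for an isotopy parametrized by `[0, 1]`.  Hypothesis: hASM.
PROOF.  `θ r = 1 - smoothTransition (r²)` is smooth, `θ 0 = 1`, `θ r = 0` for `1 ≤ |r|`, values in `[0,1]`; apply StASM to `F' r = F (θ r)`, `S = 1`. -/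
def StCRI : Prop := ∀ (n : ℕ), 2 ≤ n → ∀ (F : ℝ → WW n → WW n),
  ContDiff ℝ ∞ (Function.uncurry F) → (∀ w, F 0 w = w) →
  (∃ R : ℝ, ∀ t ∈ Set.Icc (0 : ℝ) 1, ∀ w, R ≤ ‖w‖ → F t w = w) →
  (∀ t ∈ Set.Icc (0 : ℝ) 1, ∀ w a, a ≠ 0 →
    0 < om (fderiv ℝ (F t) w a) (fderiv ℝ (F t) w (JJ a))) →
  (∀ x u v, om (fderiv ℝ (F 1) (x, 0) (u, 0)) (fderiv ℝ (F 1) (x, 0) (v, 0)) = 0) →
  HamIsotopic (Plane n) (F 1 '' Plane n)

/-- CNV (about 200 lines): the maps of a compactly supported Hamiltonian isotopy are jointly smooth, compactly supported and symplectic.  Hypothesis: hFLO.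
PROOF.  Let `X t w` be the Hamiltonian field: `om (X t w) b = D(H t)(w) b`, explicitly `X = (∇_y H, - ∇_x H)`, or `X t w = - JJ (gradient)`; it is smooth (apply the inverse of the constant
isomorphism `a ↦ om a ·`).  For `T > 0` let `X' t w = χ(t / T) • X t w` with a smooth cutoff `χ` equal to 1 on `[-1,1]`: smooth, compactly supported, so Lipschitz, StFLO gives
its smooth flow; by uniqueness of solutions (`ODE_solution_unique_of_mem_Icc` or similar) it equals `φ t` for `|t| ≤ T`.  So `φ` is smooth.  If `w ∉ C` (enlarge `C` to a closed ball of radius `R`) then `X t w = 0`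
for `‖w‖ ≥ R + 1` and the constant curve is the solution.  Symplectic: `d/dt om (Dφ a) (Dφ b) = om (DX Dφ a) (Dφ b) + om (Dφ a) (DX Dφ b) = D²H(Dφ a, Dφ b) - D²H(Dφ b, Dφ a) = 0`. -/
def StCNV : Prop := ∀ (n : ℕ) (H : ℝ → WW n → ℝ) (φ : ℝ → WW n → WW n), IsHamIsotopy H φ →
  ContDiff ℝ ∞ (Function.uncurry φ) ∧ (∃ R : ℝ, ∀ t w, R ≤ ‖w‖ → φ t w = w) ∧
  ∀ t w a b, om (fderiv ℝ (φ t) w a) (fderiv ℝ (φ t) w b) = om a b

/-! ### Part I: the extension of a nearly similar embedding -/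

/-- KA (about 150 lines): smoothness and derivative of the averages.  Hypothesis: hPAR.
PROOF.  `smo ψ g r x y = ∫ z in closedBall 0 1, ψ z • g (x + act z r y)` since `ψ = 0` off the ball; the integrand is jointly smooth; StPAR with `K = KK n`, `P = ℝ × WW n` (and with
`P = WW n`, `r` fixed).  Derivative of `g (x + act z r y)` in direction `(u, v)` is `Dg (u + Σ_j v_j z_j) = Dg u + Σ_j Σ_i v_j (z_j)_i Dg e_i`. -/
def StKA : Prop := ∀ (n : ℕ) (G : Type) [NormedAddCommGroup G] [NormedSpace ℝ G]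
  [FiniteDimensional ℝ G] (ψ : KK n → ℝ) (g : EE n → G), ContDiff ℝ ∞ ψ →
  (∀ z, 1 ≤ ‖z‖ → ψ z = 0) → ContDiff ℝ ∞ g →
  ContDiff ℝ ∞ (fun p : ℝ × WW n => smo ψ g p.1 p.2.1 p.2.2) ∧
  ∀ (r : ℝ) (x y u v : EE n), fderiv ℝ (fun w : WW n => smo ψ g r w.1 w.2) (x, y) (u, v) =
    smo ψ (fun x' => fderiv ℝ g x' u) r x y +
    ∑ j, ∑ i, v j • smo (fun z => ψ z * z.2 j i)
      (fun x' => fderiv ℝ g x' (EuclideanSpace.single i 1)) r x y

/-- KB (about 100 lines): integration by parts in the kernel variable.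
PROOF.  Let `N = ((r/s²) • u, fun j => (y j/s²) • u) : KK n`.  `act N r y = ((r² + Σ_j y_j²)/s²) • u = u` and `act` is linear in the kernel variable, so
`D_z [g (x + act z r y)] N = Dg (x + act z r y) u`.  Integrate by parts (`integral_smul_fderiv_eq_neg_fderiv_smul_of_integrable` or
`integral_bilinear_hasLineDerivAt_right_eq_neg_left_of_integrable`, Mathlib/Analysis/Calculus/LineDeriv/IntegrationByParts.lean; everything is continuous with compact support since `ψ` is). -/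
def StKB : Prop := ∀ (n : ℕ) (G : Type) [NormedAddCommGroup G] [NormedSpace ℝ G]
  [FiniteDimensional ℝ G] (ψ : KK n → ℝ) (g : EE n → G), ContDiff ℝ ∞ ψ →
  (∀ z, 1 ≤ ‖z‖ → ψ z = 0) → ContDiff ℝ ∞ g →
  ∀ (r s : ℝ) (x y u : EE n), 0 < s → r ^ 2 + ‖y‖ ^ 2 = s ^ 2 →
  smo ψ (fun x' => fderiv ℝ g x' u) r x y =
    - smo (fun z => fderiv ℝ ψ z ((r / s ^ 2) • u, fun j => (y j / s ^ 2) • u)) g r x y

/-- KC (about 350 lines): the properties of the smoothing/extension operator.  Hypotheses: hKA hKB.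
PROOF.  `rho` is smooth, even (`ContDiffBump.normed_neg`), `∫ rho = 1`, zero for `1 ≤ ‖z‖`.  Additivity: linearity of the integral (continuous integrands with compact support).
Note `smo rho (fun x => fderiv ℝ g x y) r x y = (smo rho (fderiv ℝ g) r x y) y`, so `Sm g` is smooth by KA.  Affine `g = b + T`: `∫ rho • T (act z r y) = 0` by evenness (`act` is odd in `z`).
At `(0, (x, 0))`: `act z 0 0 = 0`.  Derivative at `r = 0`, `y = 0` by KA: first term `Dg(x) u + Σ v_j Σ_i (∫ rho z_j i) Dg(x) e_i = Dg(x) u`; second term: product rule, `y = 0`, leaves `JJ (smo rho (Dg) v) = JJ (Dg(x) v)`.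
Bounds.  `‖act z r y‖ ≤ |r| + Σ |y_j| ≤ (n+1) s` for `‖z‖ ≤ 1`, so `‖smo ψ g r x y‖ ≤ (∫ |ψ|) B` for every `ψ` supported in the unit ball, if `C ≥ n + 1`.
By KB `smo ψ (Dg u) = - smo (D_N ψ) g` with `N` linear in `u`, `‖N‖ ≤ ‖u‖/s`, so `‖smo ψ (Dg u)‖ ≤ (∫ ‖Dψ‖) B ‖u‖/s`; twice (for `g' x = Dg(x) y`, the kernel `D_N ψ` is again smooth and vanishes for
`1 ≤ ‖z‖`): `‖smo ψ (D²g(u, y))‖ ≤ (∫ ‖D²ψ‖) B ‖u‖ ‖y‖/s² ≤ (∫ ‖D²ψ‖) B ‖u‖/s` as `‖y‖ ≤ s`.  Apply this with the kernels `rho` and `rho * z_j i` in the derivative formula of KA, for `g` and for `x ↦ Dg(x)` evaluated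
at `y`: `D(Sm g r)(u, v) = smo ρ (Dg u) + Σ_{j,i} v_j smo ρ_{ji} (Dg e_i) + JJ (smo ρ (D²g(u,y)) + Σ_{j,i} v_j smo ρ_{ji} (D²g(e_i,y)) + smo ρ (Dg v))`.  The value: `‖smo ρ g‖ ≤ B`, `‖smo ρ (Dg y)‖ ≤ c B ‖y‖/s ≤ c B`.
`C` is the maximum of the constants.  If it gets long, split it: KC1 = first five items, KC2 = the bounds. -/
def StKC : Prop := ∀ n : ℕ, ∃ C : ℝ, 0 < C ∧
  (∀ g h : EE n → WW n, ContDiff ℝ ∞ g → ContDiff ℝ ∞ h → ∀ r w,
    Sm (fun x => g x + h x) r w = Sm g r w + Sm h r w) ∧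
  (∀ g : EE n → WW n, ContDiff ℝ ∞ g → ContDiff ℝ ∞ (Function.uncurry (Sm g))) ∧
  (∀ (b : WW n) (T : EE n →L[ℝ] WW n) r w, Sm (fun x => b + T x) r w = b + T w.1 + JJ (T w.2)) ∧
  (∀ g : EE n → WW n, ContDiff ℝ ∞ g → ∀ x, Sm g 0 (x, 0) = g x) ∧
  (∀ g : EE n → WW n, ContDiff ℝ ∞ g → ∀ x a,
    fderiv ℝ (Sm g 0) (x, 0) a = fderiv ℝ g x a.1 + JJ (fderiv ℝ g x a.2)) ∧
  (∀ g : EE n → WW n, ContDiff ℝ ∞ g → ∀ (r : ℝ) (w : WW n) (s B : ℝ), 0 < s →
    r ^ 2 + ‖w.2‖ ^ 2 = s ^ 2 → (∀ x, ‖x - w.1‖ ≤ C * s → ‖g x‖ ≤ B) →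
    ‖Sm g r w‖ ≤ C * B ∧ ∀ a, ‖fderiv ℝ (Sm g r) w a‖ ≤ C * (B / s) * ‖a‖)

/-- NIS (about 200 lines): a map which is nearly a similarity on a ball is close to an affine near-similarity.
PROOF.  `n = 0` is trivial.  `w_i = (ι (x + R e_i) - ι x) / R`, `T u = Σ u_i w_i`.  For `a` in the ball put `c = a - x`, `q = ι a - ι x`, `|·| = nm`, `⟪,⟫ = ip`.  The hypothesis gives
`| |q|² - ρ²|c|² | ≤ 3 ε ρ² R²`, `| |R w_i|² - ρ² R² | ≤ 3 ε ρ² R²`, `| |q - R w_i|² - ρ² |c - R e_i|² | ≤ 5 ε ρ² R²` (`|c - R e_i| ≤ 2R`, `ε ≤ 1`).  Polarization: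
`|⟪q, w_i⟫ - ρ² c_i| ≤ 6 ε ρ² R` and in the same way `|⟪w_i, w_j⟫ - ρ² δ_ij| ≤ 6 ε ρ²`.  The second claim follows (`C ≥ 6 n`).  Expand
`|q - T c|² = |q|² - 2 Σ c_i ⟪q, w_i⟫ + Σ c_i c_j ⟪w_i, w_j⟫ = ρ²|c|² - 2 ρ²|c|² + ρ²|c|² + error`, error at most `(3 + 12 n + 6 n²) ε ρ² R²`, so `|q - T c| ≤ C √ε ρ R`. -/
def StNIS : Prop := ∀ n : ℕ, ∃ C : ℝ, 0 < C ∧
  ∀ (ε : ℝ) (ι : EE n → WW n) (x : EE n) (R ρ : ℝ), 0 < ε → ε ≤ 1 → 0 < R → 0 < ρ →
  (∀ a b : EE n, ‖a - x‖ ≤ R → ‖b - x‖ ≤ R → |nm (ι a - ι b) - ρ * ‖a - b‖| ≤ ε * ρ * R) →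
  ∃ T : EE n →L[ℝ] WW n,
    (∀ a, ‖a - x‖ ≤ R → ‖ι a - (ι x + T (a - x))‖ ≤ C * Real.sqrt ε * ρ * R) ∧
    ∀ u v, |ip (T u) (T v) - ρ ^ 2 * inner ℝ u v| ≤ C * ε * ρ ^ 2 * ‖u‖ * ‖v‖

/-- YNG (about 200 lines): the area defect of a segment (induction on scales).  `C` is an absolute constant, `ε₀ = 1/100`.
PROOF.  `Δ(p,q) = h q - h p - ½ om (ι p) (ι q)`, `m = ½(p+q)`, `ℓ = ‖q - p‖`.  (a) `Δ(p,q) = Δ(p,m) + Δ(m,q) + ½ om (ι m - ι p) (ι q - ι m)` (algebra).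
(b) The hypothesis at `a, b ∈ {p, m, q}` gives `| |ι m - ι p| - ρℓ/2 |, | |ι q - ι m| - ρℓ/2 |, | |ι q - ι p| - ρℓ | ≤ ερℓ/2`, and by the parallelogram identity
`|(ι q - ι m) - (ι m - ι p)|² = 2|ι q - ι m|² + 2|ι m - ι p|² - |ι q - ι p|² ≤ c ε ρ² ℓ²`, so `|om (ι m - ι p) (ι q - ι m)| = |om (ι m - ι p) ((ι q - ι m) - (ι m - ι p))| ≤ C₁ √ε ρ² ℓ²` (`|om a b| ≤ nm a * nm b`).
(c) If `ρ'` is a constant for the half `[p, m]` (ball of radius `ℓ/4` around its midpoint; exists by NearSim) then comparing both estimates for `|ι p - ι m|`: `ρ' ≤ ρ (1+ε)/(1-ε/2) ≤ 1.1 ρ`.  Same for `[m, q]`.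
(d) On a closed ball `D` around `m` of radius `ℓ` the map `ι` is Lipschitz with constant `Λ` (in `nm`), and for `p', q' ∈ D`: `|Δ(p',q')| ≤ C₂ ‖q'-p'‖²`, because the derivative of `q' ↦ Δ(p',q')` in direction `u` is
`½ om (ι q' - ι p') (Dι(q') u)` and it vanishes at `q' = p'` (mean value inequality).
(e) Claim by induction on `k`: for all `p', q'` in `D` and admissible `ρ` for `[p', q']`: `|Δ(p',q')| ≤ 2^k C₂ (ℓ'/2^k)² + K √ε ρ² ℓ'²`, with `K = 4 C₁`: the step uses (a), (b), (c) and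
`2 K (1.1)²/4 + C₁/2 ≤ K`.  Let `k → ∞`. -/
def StYNG : Prop := ∀ n : ℕ, ∃ C ε₀ : ℝ, 0 < C ∧ 0 < ε₀ ∧
  ∀ (ε : ℝ) (ι : EE n → WW n) (h : EE n → ℝ), 0 < ε → ε ≤ ε₀ → ContDiff ℝ ∞ ι → ContDiff ℝ ∞ h →
  (∀ x u, fderiv ℝ h x u = 1 / 2 * om (ι x) (fderiv ℝ ι x u)) → NearSim ε ι →
  ∀ (p q : EE n) (ρ : ℝ), p ≠ q → 0 < ρ →
  (∀ a b : EE n, ‖a - (1 / 2 : ℝ) • (p + q)‖ ≤ ‖q - p‖ / 2 →
    ‖b - (1 / 2 : ℝ) • (p + q)‖ ≤ ‖q - p‖ / 2 →
    |nm (ι a - ι b) - ρ * ‖a - b‖| ≤ ε * ρ * (‖q - p‖ / 2)) →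
  |h q - h p - 1 / 2 * om (ι p) (ι q)| ≤ C * Real.sqrt ε * ρ ^ 2 * ‖q - p‖ ^ 2

/-- APX (about 250 lines): on every ball a nearly similar isotropic map is close to an affine map whose linear part is a near-similarity and nearly isotropic.
Hypotheses: hPO0 hNIS hYNG.
PROOF.  `β_x(u) = ½ om (ι x) (Dι(x) u)` is closed since `Dβ_x[a] b = ½ om (Dι a) (Dι b) + ½ om (ι x) (D²ι(a,b))` and `ι` is isotropic; StPO0 gives `h`.  `ρ, T` from NearSim on the ball and StNIS (with `ε ≤ √ε`).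
For `i ≠ j` take the square with corners `x, x + t e_i, x + t e_i + t e_j, x + t e_j`, `t = R/2`, images `A, B, C, D`.  The four defects `Δ` of StYNG sum to `- ½ (om A B + om B C + om C D + om D A)` (the `h` terms cancel), each defect is at
most `C √ε ρ'² t²`, where `ρ'` is the constant of the side; comparing `|ι p - ι q|` for the end points of the side gives `ρ' ≤ 4 ρ` for `ε ≤ ε₀` (the side has length `R/2`, error of the big ball `ε ρ R`).
`om A B + om B C + om C D + om D A = om (B-A) (C-A) + om (C-A) (D-A)`, and `B - A = t T e_i + O(C√ε ρ R)` etc., so this sum is `2 t² om (T e_i) (T e_j) + O(√ε ρ² R²)`.  Hence `|om (T e_i) (T e_j)| ≤ C √ε ρ²`; general `u, v` by bilinearity. -/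
def StAPX : Prop := ∀ n : ℕ, ∃ C ε₀ : ℝ, 0 < C ∧ 0 < ε₀ ∧
  ∀ (ε : ℝ) (ι : EE n → WW n), 0 < ε → ε ≤ ε₀ → ContDiff ℝ ∞ ι → Isotropic ι → NearSim ε ι →
  ∀ (x : EE n) (R : ℝ), 0 < R → ∃ (ρ : ℝ) (T : EE n →L[ℝ] WW n), 0 < ρ ∧
    (∀ a, ‖a - x‖ ≤ R → ‖ι a - (ι x + T (a - x))‖ ≤ C * Real.sqrt ε * ρ * R) ∧
    (∀ u v, |ip (T u) (T v) - ρ ^ 2 * inner ℝ u v| ≤ C * Real.sqrt ε * ρ ^ 2 * ‖u‖ * ‖v‖) ∧
    (∀ u v, |om (T u) (T v)| ≤ C * Real.sqrt ε * ρ ^ 2 * ‖u‖ * ‖v‖)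

/-- PTW (about 200 lines): the extension pulls `ω` back to a form taming `J`, away from `s = 0`.  Hypotheses: hKC hAPX.
PROOF.  `s = √(r² + ‖w.2‖²)`, `C` from KC; StAPX at `x = w.1`, `R = C s`: `ρ, T`.  `ι = A + g`, `A x' = (ι x - T x) + T x'`, `‖g‖ ≤ C' √ε ρ C s` on the ball, so by KC `D(Sm ι r)(w)(u, v) = T u + JJ (T v) + e(u, v)` with
`‖e a‖ ≤ C'' √ε ρ ‖a‖`.  With `U (u, v) = T u + JJ (T v)`, `JJ (u, v) = (-v, u)`: `om (U a) (U (JJ a)) = om (T u + JJ T v) (- T v + JJ T u) = ip (T u) (T u) + ip (T v) (T v) - 2 om (T u) (T v)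
≥ ρ² (1 - c√ε) (‖u‖² + ‖v‖²)` using `om p (JJ q) = ip p q`, `om (JJ p) (JJ q) = om p q`.  The terms with `e` are at most `c √ε ρ² ‖a‖²`.  So positive for `ε` small. -/
def StPTW : Prop := ∀ n : ℕ, ∃ ε : ℝ, 0 < ε ∧ ∀ ι : EE n → WW n, ContDiff ℝ ∞ ι → Isotropic ι →
  NearSim ε ι → ∀ (r : ℝ) (w : WW n), 0 < r ^ 2 + ‖w.2‖ ^ 2 → ∀ a, a ≠ 0 →
  0 < om (fderiv ℝ (Sm ι r) w a) (fderiv ℝ (Sm ι r) w (JJ a))

/-- EXT (about 300 lines): the cut off extension.  Hypotheses: hKC hPTW.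
PROOF.  `u = ι - ι₀`, `ι₀ x = (x, 0)`: smooth, `u = 0` for `‖x‖ ≥ R₀`, `‖u‖ ≤ B`.  `Sm ι₀ r w = w` (KC, affine).  `F r w = w + χ((r² + ‖w.2‖²)/S²) • Sm u r w`, `χ t = 1` for `t ≤ 1/4` and `χ t = 0` for `t ≥ 1` (smoothTransition), `S`
large.  For `|r| ≥ S` or `‖w.2‖ ≥ S`: `F r w = w`.  If `‖w.1‖ ≥ R₀ + C S` and `r² + ‖w.2‖² ≤ S²` then `u = 0` on the ball of radius `C s` around `w.1`, so `Sm u r w = 0` (bound with `B = 0`; for `s = 0` it is `u (w.1) = 0`).  So `F r w = w` for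
`‖w‖ ≥ R₀ + C S + S`.  `F 0 (x, 0) = (x, 0) + u x = ι x`.  Taming: if `0 < s < S/2` then `F r = Sm ι r` near `w`, StPTW.  If `s = 0`: `DF (a) = Dι a.1 + JJ (Dι a.2)` (KC), `om (..) (..) = ip (Dι a.1) (Dι a.1) + ip (Dι a.2) (Dι a.2) - 2 om (Dι a.1) (Dι a.2) > 0` by
isotropy and injectivity.  If `s ≥ S/2`: `DF = id + e` with `‖e a‖ ≤ (C B/s + c/S · C B) ‖a‖ ≤ c' B/S ‖a‖ ≤ ‖a‖/100` for `S` large (for `s > S` `F` is the identity near `w`; derivative of `χ((r²+‖w.2‖²)/S²)` in `w` is at most `c ‖w.2‖/S² ≤ c/S`), and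
`om (a + e a) (JJ a + e (JJ a)) ≥ |a|² - ... > 0`. -/
def StEXT : Prop := ∀ n : ℕ, ∃ ε : ℝ, 0 < ε ∧ ∀ ι : EE n → WW n, ContDiff ℝ ∞ ι → Immersive ι →
  Isotropic ι → StdInfty ι → NearSim ε ι →
  ∃ (F : ℝ → WW n → WW n) (S R : ℝ), 0 < S ∧ ContDiff ℝ ∞ (Function.uncurry F) ∧
    (∀ r w, S ≤ |r| → F r w = w) ∧ (∀ r w, R ≤ ‖w‖ → F r w = w) ∧
    (∀ r w a, a ≠ 0 → 0 < om (fderiv ℝ (F r) w a) (fderiv ℝ (F r) w (JJ a))) ∧
    ∀ x, F 0 (x, 0) = ι x

/-- GAP (about 60 lines): the gap theorem.  Hypotheses: hASM hEXT.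
PROOF.  `ε` from StEXT, `F` from StEXT; isotropy of `F 0` on the plane: `D(F 0)(x,0)(u,0) = Dι(x) u` (chain rule); `F 0 '' Plane n = range ι`; StASM. -/
def StGAP : Prop := ∀ n : ℕ, 2 ≤ n → ∃ ε : ℝ, 0 < ε ∧ ∀ ι : EE n → WW n, ContDiff ℝ ∞ ι →
  Immersive ι → Isotropic ι → StdInfty ι → NearSim ε ι → HamIsotopic (Plane n) (Set.range ι)

end Pool.Agent.Helper14.LK
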