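import Mathlib

/-!
Project LK (MP_58b586_gt): definitions.

`EE n` is euclidean `ℝⁿ`, `WW n = EE n × EE n` is `ℝ²ⁿ` with coordinates `(x, y)`; `om` is the standard
symplectic form, `ip` the euclidean inner product, `nm` the euclidean norm, `JJ (x, y) = (-y, x)`.
-/

set_option autoImplicit false

open MeasureTheory
open scoped ContDiff

namespace Pool.Agent.Helper14.LK

/-- euclidean `ℝⁿ` -/
abbrev EE (n : ℕ) : Type := EuclideanSpace ℝ (Fin n)

/-- `ℝ²ⁿ = ℝⁿ × ℝⁿ`, points are `(x, y)` -/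
abbrev WW (n : ℕ) : Type := EE n × EE n

/-- the standard symplectic form `Σ dxᵢ ∧ dyᵢ` -/
noncomputable def om {n : ℕ} (a b : WW n) : ℝ := inner ℝ a.1 b.2 - inner ℝ a.2 b.1

/-- the euclidean inner product of `ℝ²ⁿ` -/
noncomputable def ip {n : ℕ} (a b : WW n) : ℝ := inner ℝ a.1 b.1 + inner ℝ a.2 b.2

/-- the euclidean norm of `ℝ²ⁿ` -/
noncomputable def nm {n : ℕ} (a : WW n) : ℝ := Real.sqrt (‖a.1‖ ^ 2 + ‖a.2‖ ^ 2)

/-- the standard complex structure `J (x, y) = (-y, x)` -/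
noncomputable def JJ {n : ℕ} : WW n →L[ℝ] WW n :=
  (-(ContinuousLinearMap.snd ℝ (EE n) (EE n))).prod (ContinuousLinearMap.fst ℝ (EE n) (EE n))

/-- `ι` pulls the symplectic form back to zero -/
def Isotropic {n : ℕ} (ι : EE n → WW n) : Prop :=
  ∀ x u v, om (fderiv ℝ ι x u) (fderiv ℝ ι x v) = 0

/-- `ι` is an immersion -/
def Immersive {n : ℕ} (ι : EE n → WW n) : Prop := ∀ x u, fderiv ℝ ι x u = 0 → u = 0

/-- `ι` is standard at infinity -/
def StdInfty {n : ℕ} (ι : EE n → WW n) : Prop := ∃ R : ℝ, ∀ x, R ≤ ‖x‖ → ι x = (x, 0)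

/-- the standard Lagrangian plane `ℝⁿ × 0` -/
def Plane (n : ℕ) : Set (WW n) := {w | w.2 = 0}

/-- `φ_t` is the family of maps obtained by integrating the Hamiltonian vector fields of `H`, and
`H t w = 0` for `w` outside a compact set: a compactly supported Hamiltonian isotopy.
The vector field `X` of `H t` is given by `om X b = d(H t) b`, that is `X = (∂H/∂y, -∂H/∂x)`. -/
def IsHamIsotopy {n : ℕ} (H : ℝ → WW n → ℝ) (φ : ℝ → WW n → WW n) : Prop :=
  ContDiff ℝ ∞ (Function.uncurry H) ∧ (∃ C : Set (WW n), IsCompact C ∧ ∀ t, ∀ w ∉ C, H t w = 0) ∧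
  (∀ w, φ 0 w = w) ∧
  ∀ t w, ∃ v : WW n, HasDerivAt (fun s => φ s w) v t ∧ ∀ b, om v b = fderiv ℝ (H t) (φ t w) b

/-- some compactly supported Hamiltonian isotopy carries `A` onto `B` -/
def HamIsotopic {n : ℕ} (A B : Set (WW n)) : Prop :=
  ∃ (H : ℝ → WW n → ℝ) (φ : ℝ → WW n → WW n), IsHamIsotopy H φ ∧ φ 1 '' A = B

/-- `ι` is `ε`-nearly a similarity on every ball, at every scale -/
def NearSim {n : ℕ} (ε : ℝ) (ι : EE n → WW n) : Prop :=
  ∀ (x : EE n) (R : ℝ), 0 < R → ∃ ρ : ℝ, 0 < ρ ∧ ∀ a b : EE n, ‖a - x‖ ≤ R → ‖b - x‖ ≤ R →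
    |nm (ι a - ι b) - ρ * ‖a - b‖| ≤ ε * ρ * R

/-! ### the smoothing operator -/

/-- the space of kernel variables: `n + 1` vectors of `ℝⁿ` -/
abbrev KK (n : ℕ) : Type := EE n × (Fin n → EE n)

/-- `z · (r, y) = r z₀ + Σ yⱼ zⱼ` -/
noncomputable def act {n : ℕ} (z : KK n) (r : ℝ) (y : EE n) : EE n := r • z.1 + ∑ j, y j • z.2 j

/-- a bump function on the kernel space, supported in the closed unit ball -/
noncomputable def bmp (n : ℕ) : ContDiffBump (0 : KK n) := ⟨1 / 2, 1, by norm_num, by norm_num⟩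

/-- the smoothing kernel: smooth, even, nonnegative, integral one, supported in the closed unit ball -/
noncomputable def rho {n : ℕ} (z : KK n) : ℝ := (bmp n).normed volume z

/-- average of `g` against the kernel `ψ` -/
noncomputable def smo {n : ℕ} {G : Type} [NormedAddCommGroup G] [NormedSpace ℝ G]
    (ψ : KK n → ℝ) (g : EE n → G) (r : ℝ) (x y : EE n) : G :=
  ∫ z, ψ z • g (x + act z r y)

/-- the smoothing/extension operator `Sm g r (x, y) = g_s(x) + J (D g_s(x) y)`, `s ~ |(r, y)|` -/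
noncomputable def Sm {n : ℕ} (g : EE n → WW n) (r : ℝ) (w : WW n) : WW n :=
  smo rho g r w.1 w.2 + JJ (smo rho (fun x => fderiv ℝ g x w.2) r w.1 w.2)

end Pool.Agent.Helper14.LK
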