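import Pool.Agent.Helper14.LK.St
import Pool.Agent.Helper14.LK.Basic

/-!
Project LK (MP_58b586_gt): modules CRI (the stability theorem for an isotopy parametrized by `[0, 1]`)
and GAP (the gap theorem).
-/

set_option autoImplicit false

open scoped ContDiff Topology
open MeasureTheory Set Filter

namespace Pool.Agent.Helper14.LK

private noncomputable def theta (r : ℝ) : ℝ := 1 - Real.smoothTransition (r ^ 2)

private lemma theta_smooth : ContDiff ℝ ∞ theta :=
  contDiff_const.sub (Real.smoothTransition.contDiff.comp (contDiff_id.pow 2))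

private lemma theta_zero : theta 0 = 1 := by
  simp [theta, Real.smoothTransition.zero]

private lemma theta_mem (r : ℝ) : theta r ∈ Icc (0 : ℝ) 1 := by
  unfold theta
  constructor
  · linarith [Real.smoothTransition.le_one (r ^ 2)]
  · linarith [Real.smoothTransition.nonneg (r ^ 2)]

private lemma theta_far {r : ℝ} (h : 1 ≤ |r|) : theta r = 0 := by
  unfold theta
  rw [Real.smoothTransition.one_of_one_le, sub_self]
  rw [← sq_abs]
  nlinarith

/-- Module CRI of project LK. -/
theorem hCRI (hASM : StASM) : StCRI := by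
  intro n hn F hF hF0 ⟨R, hR⟩ htame hiso
  have h := hASM n hn (fun r => F (theta r)) 1 R one_pos
    (hF.comp ((theta_smooth.comp contDiff_fst).prodMk contDiff_snd))
    (fun r w hr => by simp only [theta_far hr, hF0])
    (fun r w hw => hR _ (theta_mem r) w hw)
    (fun r w a ha => htame _ (theta_mem r) w a ha)
    (by simpa only [theta_zero] using hiso)
  simpa only [theta_zero] using h

/-- Module GAP of project LK. -/
theorem hGAP (hASM : StASM) (hEXT : StEXT) : StGAP := by
  intro n hn
  obtain ⟨ε, hε, h⟩ := hEXT n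
  refine ⟨ε, hε, fun ι hι himm hiso hstd hsim => ?_⟩
  obtain ⟨F, S, R, hS, hF, hFS, hFR, htame, hFι⟩ := h ι hι himm hiso hstd hsim
  have hF0 : ContDiff ℝ ∞ (F 0) := hF.comp (contDiff_const.prodMk contDiff_id)
  have hder : ∀ x u, fderiv ℝ (F 0) (x, 0) (u, 0) = fderiv ℝ ι x u := by
    intro x u
    have h1 : HasFDerivAt (fun x : EE n => F 0 (x, 0))
        ((fderiv ℝ (F 0) (x, 0)).comp (ContinuousLinearMap.inl ℝ (EE n) (EE n))) x := by
      have h2 : HasFDerivAt (fun x : EE n => ((x, 0) : WW n))
          (ContinuousLinearMap.inl ℝ (EE n) (EE n)) x := hasFDerivAt_prodMk_left x 0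
      exact HasFDerivAt.comp x (((hF0.differentiable (by simp)) (x, 0)).hasFDerivAt) h2
    have h3 : (fun x : EE n => F 0 (x, 0)) = ι := funext hFι
    rw [h3] at h1
    rw [h1.fderiv]
    simp
  have h4 : F 0 '' Plane n = Set.range ι := by
    ext w
    constructor
    · rintro ⟨⟨x, y⟩, hy, rfl⟩
      have hy' : y = 0 := hy
      subst hy'
      exact ⟨x, (hFι x).symm⟩
    · rintro ⟨x, rfl⟩
      exact ⟨(x, 0), rfl, hFι x⟩
  rw [← h4]
  exact hASM n hn F S R hS hF hFS hFR htame (fun x u v => by rw [hder, hder]; exact hiso x u v)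

end Pool.Agent.Helper14.LK
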