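import Pool.Agent.Helper14.LK.St
import Pool.Agent.Helper14.LK.Basic

set_option autoImplicit false

open scoped ContDiff Topology
open MeasureTheory Set Filter

namespace Pool.Agent.Helper14.LK

variable {E : Type} [NormedAddCommGroup E] [NormedSpace ℝ E] [FiniteDimensional ℝ E]

private noncomputable def ext01 (η : C(unitInterval, E)) (σ : ℝ) : E :=
  η (Set.projIcc 0 1 zero_le_one σ)

omit [FiniteDimensional ℝ E] in
private lemma ext01_cont (η : C(unitInterval, E)) : Continuous (ext01 η) := by
  unfold ext01; exact η.continuous.comp continuous_projIcc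

private noncomputable def prim (η : C(unitInterval, E)) : C(unitInterval, E) :=
  ⟨fun s => ∫ σ in (0 : ℝ)..(s : ℝ), ext01 η σ,
    (intervalIntegral.continuous_primitive
      (fun a b => (ext01_cont η).intervalIntegrable a b) 0).comp continuous_subtype_val⟩

omit [FiniteDimensional ℝ E] in
private lemma prim_apply (η : C(unitInterval, E)) (s : unitInterval) :
    prim η s = ∫ σ in (0 : ℝ)..(s : ℝ), ext01 η σ := rfl

omit [FiniteDimensional ℝ E] in
private lemma ext01_norm (η : C(unitInterval, E)) (σ : ℝ) : ‖ext01 η σ‖ ≤ ‖η‖ :=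
  η.norm_coe_le_norm _

private noncomputable def primL : C(unitInterval, E) →L[ℝ] C(unitInterval, E) :=
  LinearMap.mkContinuous
    { toFun := prim
      map_add' := fun η ζ => by
        ext s
        simp only [prim_apply, ContinuousMap.add_apply]
        rw [← intervalIntegral.integral_add ((ext01_cont η).intervalIntegrable _ _)
          ((ext01_cont ζ).intervalIntegrable _ _)]
        rfl
      map_smul' := fun c η => by
        ext s
        simp only [prim_apply, ContinuousMap.smul_apply, RingHom.id_apply]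
        rw [← intervalIntegral.integral_smul]
        rfl } 1 (fun η => by
        rw [one_mul]
        refine (ContinuousMap.norm_le _ (norm_nonneg _)).2 fun s => ?_
        show ‖prim η s‖ ≤ _
        rw [prim_apply]
        refine (intervalIntegral.norm_integral_le_of_norm_le_const (C := ‖η‖)
          (fun σ _ => ext01_norm η σ)).trans ?_
        have h0 := s.2.1
        have h1 := s.2.2
        rw [sub_zero, abs_of_nonneg h0]
        exact mul_le_of_le_one_right (norm_nonneg _) h1)

omit [FiniteDimensional ℝ E] in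
private lemma primL_apply (η : C(unitInterval, E)) : primL η = prim η := rfl

/-- Volterra type maps: iterates -/
private lemma volt_iter {Q : C(unitInterval, E) → C(unitInterval, E)} {c : ℝ} (hc : 0 ≤ c)
    (hQ : ∀ γ η (s : unitInterval), ‖Q γ s - Q η s‖ ≤ c * ∫ σ in (0 : ℝ)..(s : ℝ),
      ‖ext01 γ σ - ext01 η σ‖) (m : ℕ) :
    ∀ γ η (s : unitInterval), ‖Q^[m] γ s - Q^[m] η s‖ ≤
      (c * s) ^ m / m.factorial * ‖γ - η‖ := by
  induction m with
  | zero =>
    intro γ η s
    simp only [Function.iterate_zero, id_eq, pow_zero, Nat.factorial_zero, Nat.cast_one, div_one,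
      one_mul]
    exact (γ - η).norm_coe_le_norm s
  | succ m ih =>
    intro γ η s
    rw [Function.iterate_succ_apply', Function.iterate_succ_apply']
    refine (hQ _ _ s).trans ?_
    have hs0 : (0 : ℝ) ≤ s := s.2.1
    have hs1 : (s : ℝ) ≤ 1 := s.2.2
    have h1 : ∫ σ in (0 : ℝ)..(s : ℝ), ‖ext01 (Q^[m] γ) σ - ext01 (Q^[m] η) σ‖ ≤
        ∫ σ in (0 : ℝ)..(s : ℝ), (c ^ m / m.factorial * ‖γ - η‖) * σ ^ m := by
      apply intervalIntegral.integral_mono_on hs0
      · exact (((ext01_cont _).sub (ext01_cont _)).norm).intervalIntegrable _ _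
      · exact (by fun_prop : Continuous fun σ : ℝ => (c ^ m / m.factorial * ‖γ - η‖) * σ ^ m).intervalIntegrable _ _
      · intro σ hσ
        have hσ1 : σ ∈ Icc (0 : ℝ) 1 := ⟨hσ.1, hσ.2.trans hs1⟩
        have h2 := ih γ η ⟨σ, hσ1⟩
        unfold ext01
        rw [Set.projIcc_of_mem zero_le_one hσ1]
        refine h2.trans (le_of_eq ?_)
        simp only
        rw [mul_pow]
        ring
    refine (mul_le_mul_of_nonneg_left h1 hc).trans (le_of_eq ?_)
    rw [intervalIntegral.integral_const_mul, integral_pow]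
    have : ((m : ℝ) + 1) ≠ 0 := by positivity
    have h3 : (m.factorial : ℝ) ≠ 0 := by positivity
    rw [Nat.factorial_succ]
    push_cast
    field_simp
    simp
    ring


private lemma volt_small {Q : C(unitInterval, E) → C(unitInterval, E)} {c : ℝ} (hc : 0 ≤ c)
    (hQ : ∀ γ η (s : unitInterval), ‖Q γ s - Q η s‖ ≤ c * ∫ σ in (0 : ℝ)..(s : ℝ),
      ‖ext01 γ σ - ext01 η σ‖) :
    ∃ m : ℕ, ∀ γ η, ‖Q^[m] γ - Q^[m] η‖ ≤ 1 / 2 * ‖γ - η‖ := by
  have h := (FloorSemiring.tendsto_pow_div_factorial_atTop c).eventually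
    (gt_mem_nhds (show (0 : ℝ) < 1 / 2 by norm_num))
  obtain ⟨m, hm⟩ := h.exists
  refine ⟨m, fun γ η => ?_⟩
  refine (ContinuousMap.norm_le _ (by positivity)).2 fun s => ?_
  have h1 := volt_iter hc hQ m γ η s
  have hs0 : (0 : ℝ) ≤ s := s.2.1
  have hs1 : (s : ℝ) ≤ 1 := s.2.2
  refine h1.trans ?_
  apply mul_le_mul_of_nonneg_right _ (norm_nonneg _)
  refine le_trans ?_ hm.le
  have : (c * s) ^ m ≤ c ^ m := by
    apply pow_le_pow_left₀ (by positivity)
    exact mul_le_of_le_one_right hc hs1
  gcongr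

private lemma volt_fix {Q : C(unitInterval, E) → C(unitInterval, E)} {c : ℝ} (hc : 0 ≤ c)
    (hQ : ∀ γ η (s : unitInterval), ‖Q γ s - Q η s‖ ≤ c * ∫ σ in (0 : ℝ)..(s : ℝ),
      ‖ext01 γ σ - ext01 η σ‖) :
    (∃ γ, Q γ = γ) ∧ ∀ γ η, Q γ = γ → Q η = η → γ = η := by
  obtain ⟨m, hm⟩ := volt_small hc hQ
  have hcon : ContractingWith (1 / 2 : NNReal) Q^[m] := by
    refine ⟨by rw [← NNReal.coe_lt_coe]; norm_num, LipschitzWith.of_dist_le_mul fun γ η => ?_⟩
    rw [dist_eq_norm, dist_eq_norm]
    simpa using hm γ η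
  refine ⟨⟨_, hcon.isFixedPt_fixedPoint_iterate⟩, fun γ η hγ hη => ?_⟩
  have h1 := hm γ η
  rw [Function.iterate_fixed hγ, Function.iterate_fixed hη] at h1
  have h2 := norm_nonneg (γ - η)
  exact sub_eq_zero.1 (norm_eq_zero.1 (by linarith))

private lemma volt_unit {A : C(unitInterval, E) →L[ℝ] C(unitInterval, E)} {c : ℝ} (hc : 0 ≤ c)
    (hA : ∀ η (s : unitInterval), ‖A η s‖ ≤ c * ∫ σ in (0 : ℝ)..(s : ℝ), ‖ext01 η σ‖) :
    IsUnit (1 - A) := by
  have hQ : ∀ γ η (s : unitInterval), ‖A γ s - A η s‖ ≤ c * ∫ σ in (0 : ℝ)..(s : ℝ),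
      ‖ext01 γ σ - ext01 η σ‖ := by
    intro γ η s
    have := hA (γ - η) s
    rw [map_sub] at this
    exact this
  obtain ⟨m, hm⟩ := volt_small hc hQ
  have h1 : ‖A ^ m‖ ≤ 1 / 2 := by
    apply ContinuousLinearMap.opNorm_le_bound _ (by norm_num)
    intro η
    have h2 := hm η 0
    have h3 : (⇑A)^[m] 0 = 0 := Function.iterate_fixed (map_zero A) m
    rw [h3, sub_zero, sub_zero] at h2
    rwa [FunLike.coe_pow_eq_iterate]
  have h4 : IsUnit (1 - A ^ m) := (Units.oneSub (A ^ m) (by linarith)).isUnit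
  rw [← mul_neg_geom_sum] at h4
  have h5 : Commute (1 - A) (∑ i ∈ Finset.range m, A ^ i) := by
    apply Commute.sum_right
    intro i _
    exact ((Commute.one_left _).sub_left (Commute.pow_right (Commute.refl A) i))
  exact (h5.isUnit_mul_iff.1 h4).1

private noncomputable def nem (W : E → E) (hW : Continuous W) (γ : C(unitInterval, E)) :
    C(unitInterval, E) := ⟨fun t => W (γ t), hW.comp γ.continuous⟩

omit [FiniteDimensional ℝ E] in
private lemma ext01_nem (W : E → E) (hW : Continuous W) (γ : C(unitInterval, E)) (σ : ℝ) :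
    ext01 (nem W hW γ) σ = W (ext01 γ σ) := rfl

omit [FiniteDimensional ℝ E] in
private lemma norm_sub_prim_le (γ η : C(unitInterval, E)) (s : unitInterval) :
    ‖prim γ s - prim η s‖ ≤ ∫ σ in (0 : ℝ)..(s : ℝ), ‖ext01 γ σ - ext01 η σ‖ := by
  rw [prim_apply, prim_apply, ← intervalIntegral.integral_sub
    ((ext01_cont γ).intervalIntegrable _ _) ((ext01_cont η).intervalIntegrable _ _)]
  exact intervalIntegral.norm_integral_le_integral_norm s.2.1

/-- the Picard map -/
private noncomputable def pic (W : E → E) (hW : Continuous W) (t : ℝ) (x : E)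
    (γ : C(unitInterval, E)) : C(unitInterval, E) :=
  ContinuousLinearMap.const ℝ unitInterval x + t • primL (nem W hW γ)

private lemma pic_volt {W : E → E} (hW : Continuous W) {K : NNReal} (hK : LipschitzWith K W)
    (t : ℝ) (x : E) (γ η : C(unitInterval, E)) (s : unitInterval) :
    ‖pic W hW t x γ s - pic W hW t x η s‖ ≤ (|t| * K) * ∫ σ in (0 : ℝ)..(s : ℝ),
      ‖ext01 γ σ - ext01 η σ‖ := by
  have h1 : pic W hW t x γ s - pic W hW t x η s =
      t • (prim (nem W hW γ) s - prim (nem W hW η) s) := by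
    unfold pic
    simp only [ContinuousMap.add_apply, ContinuousMap.smul_apply, primL_apply, smul_sub]
    abel
  rw [h1, norm_smul, Real.norm_eq_abs, mul_assoc]
  apply mul_le_mul_of_nonneg_left _ (abs_nonneg t)
  refine (norm_sub_prim_le _ _ s).trans ?_
  rw [← intervalIntegral.integral_const_mul]
  apply intervalIntegral.integral_mono_on s.2.1
  · exact (((ext01_cont _).sub (ext01_cont _)).norm).intervalIntegrable _ _
  · exact (continuous_const.mul ((ext01_cont _).sub (ext01_cont _)).norm).intervalIntegrable _ _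
  · intro σ _
    rw [ext01_nem, ext01_nem]
    exact hK.norm_sub_le _ _


private lemma fderiv_nem {W : E → E} (hW : ContDiff ℝ ∞ W)
    (hN : ContDiff ℝ ∞ (nem W hW.continuous)) (γ η : C(unitInterval, E)) (s : unitInterval) :
    (fderiv ℝ (nem W hW.continuous) γ η) s = fderiv ℝ W (γ s) (η s) := by
  have hNd : DifferentiableAt ℝ (nem W hW.continuous) γ := (hN.differentiable (by simp)) γ
  have hWd : DifferentiableAt ℝ W (γ s) := (hW.differentiable (by simp)) _
  let ev : C(unitInterval, E) →L[ℝ] E := ContinuousMap.evalCLM ℝ s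
  have h1 : HasFDerivAt (fun γ' : C(unitInterval, E) => ev (nem W hW.continuous γ'))
      (ev.comp (fderiv ℝ (nem W hW.continuous) γ)) γ :=
    HasFDerivAt.comp γ (g := ev) ev.hasFDerivAt hNd.hasFDerivAt
  have h2 : HasFDerivAt (fun γ' : C(unitInterval, E) => W (ev γ'))
      ((fderiv ℝ W (γ s)).comp ev) γ :=
    HasFDerivAt.comp γ (f := ev) hWd.hasFDerivAt ev.hasFDerivAt
  have h3 := h1.unique h2
  exact congrArg (fun L : C(unitInterval, E) →L[ℝ] E => L η) h3

private lemma part_unit {W : E → E} (hW : ContDiff ℝ ∞ W)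
    (hN : ContDiff ℝ ∞ (nem W hW.continuous)) {K : NNReal} (hK : LipschitzWith K W) (t : ℝ)
    (γ : C(unitInterval, E)) :
    IsUnit (1 - t • (primL.comp (fderiv ℝ (nem W hW.continuous) γ))) := by
  apply volt_unit (c := |t| * K) (by positivity)
  intro η s
  have h1 : (t • (primL.comp (fderiv ℝ (nem W hW.continuous) γ))) η s =
      t • prim (fderiv ℝ (nem W hW.continuous) γ η) s := rfl
  rw [h1, norm_smul, Real.norm_eq_abs, mul_assoc]
  apply mul_le_mul_of_nonneg_left _ (abs_nonneg t)
  rw [prim_apply]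
  refine (intervalIntegral.norm_integral_le_integral_norm s.2.1).trans ?_
  rw [← intervalIntegral.integral_const_mul]
  apply intervalIntegral.integral_mono_on s.2.1
  · exact ((ext01_cont _).norm).intervalIntegrable _ _
  · exact (continuous_const.mul (ext01_cont _).norm).intervalIntegrable _ _
  · intro σ _
    unfold ext01
    rw [fderiv_nem hW hN]
    refine (ContinuousLinearMap.le_opNorm _ _).trans ?_
    apply mul_le_mul_of_nonneg_right _ (norm_nonneg _)
    exact norm_fderiv_le_of_lipschitz ℝ hK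

/-- Module FLB of project LK. -/
theorem hFLB (hNEM : StNEM) : StFLB := by
  intro E _ _ _ W hW hKK
  obtain ⟨K, hK⟩ := hKK
  have hN : ContDiff ℝ ∞ (nem W hW.continuous) := hNEM E E W hW
  have hfix := fun t x => volt_fix (Q := pic W hW.continuous t x) (c := |t| * K) (by positivity)
    (pic_volt hW.continuous hK t x)
  choose Γ hΓ using fun t x => (hfix t x).1
  have huniq := fun t x => (hfix t x).2
  -- the implicit function
  let f : (ℝ × E) × C(unitInterval, E) → C(unitInterval, E) := fun q =>
    q.2 - pic W hW.continuous q.1.1 q.1.2 q.2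
  have hf : ContDiff ℝ ∞ f := by
    have h1 : ContDiff ℝ ∞ (fun q : (ℝ × E) × C(unitInterval, E) =>
        primL (nem W hW.continuous q.2)) := primL.contDiff.comp (hN.comp contDiff_snd)
    have h2 : ContDiff ℝ ∞ (fun q : (ℝ × E) × C(unitInterval, E) =>
        ContinuousLinearMap.const ℝ unitInterval q.1.2) :=
      ContDiff.comp (g := (ContinuousLinearMap.const ℝ unitInterval : E →L[ℝ] C(unitInterval, E)))
        (ContinuousLinearMap.contDiff _) (contDiff_snd.comp contDiff_fst)
    exact contDiff_snd.sub (h2.add ((contDiff_fst.comp contDiff_fst).smul h1))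
  have hΓs : ContDiff ℝ ∞ (fun p : ℝ × E => Γ p.1 p.2) := by
    rw [contDiff_iff_contDiffAt]
    rintro ⟨t, x⟩
    have hcd : ContDiffAt ℝ ∞ f ((t, x), Γ t x) := hf.contDiffAt
    have hfd : fderiv ℝ f ((t, x), Γ t x) ∘L .inr ℝ (ℝ × E) C(unitInterval, E) =
        1 - t • (primL.comp (fderiv ℝ (nem W hW.continuous) (Γ t x))) := by
      have h1 : HasFDerivAt (fun γ : C(unitInterval, E) => f ((t, x), γ))
          (fderiv ℝ f ((t, x), Γ t x) ∘L .inr ℝ (ℝ × E) C(unitInterval, E)) (Γ t x) :=
        HasFDerivAt.comp (Γ t x) ((hf.differentiable (by simp)) _).hasFDerivAt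
          (hasFDerivAt_prodMk_right (t, x) (Γ t x))
      have h2 : HasFDerivAt (fun γ : C(unitInterval, E) => f ((t, x), γ))
          (1 - t • (primL.comp (fderiv ℝ (nem W hW.continuous) (Γ t x)))) (Γ t x) := by
        have h3 : HasFDerivAt (fun γ : C(unitInterval, E) => primL (nem W hW.continuous γ))
            (primL.comp (fderiv ℝ (nem W hW.continuous) (Γ t x))) (Γ t x) :=
          HasFDerivAt.comp (Γ t x) (g := (primL : C(unitInterval, E) →L[ℝ] C(unitInterval, E)))
            (ContinuousLinearMap.hasFDerivAt _) ((hN.differentiable (by simp)) _).hasFDerivAt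
        have h4 := (h3.const_smul t).const_add (ContinuousLinearMap.const ℝ unitInterval x)
        exact (hasFDerivAt_id (Γ t x)).sub h4
      exact h1.unique h2
    have hinv : (fderiv ℝ f ((t, x), Γ t x) ∘L .inr ℝ (ℝ × E) C(unitInterval, E)).IsInvertible := by
      rw [hfd]
      obtain ⟨u, hu⟩ := part_unit hW hN hK t (Γ t x)
      refine ContinuousLinearMap.IsInvertible.of_inverse
        (g := (↑u⁻¹ : C(unitInterval, E) →L[ℝ] C(unitInterval, E))) ?_ ?_
      · rw [← hu]
        exact u.mul_inv
      · rw [← hu]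
        exact u.inv_mul
    have hψ := hcd.contDiffAt_implicitFunction (by simp) hinv
    refine hψ.congr_of_eventuallyEq ?_
    have hev := hcd.eventually_apply_implicitFunction (by simp) hinv
    filter_upwards [hev] with p hp
    have h5 : f ((t, x), Γ t x) = 0 := by
      show Γ t x - pic W hW.continuous t x (Γ t x) = 0
      rw [hΓ, sub_self]
    rw [h5] at hp
    have h6 : pic W hW.continuous p.1 p.2 (hcd.implicitFunction (by simp) hinv p) =
        hcd.implicitFunction (by simp) hinv p := (sub_eq_zero.1 hp).symm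
    exact huniq p.1 p.2 _ _ (hΓ p.1 p.2) h6
  -- scaling
  have hscale : ∀ (c : unitInterval) (t : ℝ) (x : E), Γ (c * t) x 1 = Γ t x c := by
    intro c t x
    let sc : C(unitInterval, unitInterval) := ⟨fun s => c * s, by fun_prop⟩
    have h1 : pic W hW.continuous (c * t) x ((Γ t x).comp sc) = (Γ t x).comp sc := by
      ext s
      have h2 : pic W hW.continuous t x (Γ t x) (c * s) = Γ t x (c * s) := by rw [hΓ]
      have h3 : ((Γ t x).comp sc) s = Γ t x (c * s) := rfl
      rw [h3, ← h2]
      show x + ((c : ℝ) * t) • (∫ σ in (0 : ℝ)..(s : ℝ), ext01 (nem W hW.continuous ((Γ t x).comp sc)) σ) =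
        x + t • (∫ σ in (0 : ℝ)..((c * s : unitInterval) : ℝ), ext01 (nem W hW.continuous (Γ t x)) σ)
      have h4 : (∫ σ in (0 : ℝ)..(s : ℝ), ext01 (nem W hW.continuous ((Γ t x).comp sc)) σ) =
          ∫ σ in (0 : ℝ)..(s : ℝ), ext01 (nem W hW.continuous (Γ t x)) (c * σ) := by
        apply intervalIntegral.integral_congr
        intro σ hσ
        rw [uIcc_of_le s.2.1] at hσ
        have hσ1 : σ ∈ Icc (0 : ℝ) 1 := ⟨hσ.1, hσ.2.trans s.2.2⟩
        have hσ2 : (c : ℝ) * σ ∈ Icc (0 : ℝ) 1 :=
          ⟨mul_nonneg c.2.1 hσ1.1, mul_le_one₀ c.2.2 hσ1.1 hσ1.2⟩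
        simp only [ext01_nem]
        unfold ext01
        rw [Set.projIcc_of_mem zero_le_one hσ1, Set.projIcc_of_mem zero_le_one hσ2]
        rfl
      rw [h4, mul_comm (c : ℝ) t, mul_smul, intervalIntegral.smul_integral_comp_mul_left, mul_zero]
      rfl
    have h5 := huniq _ _ _ _ (hΓ (c * t) x) h1
    rw [h5]
    show Γ t x (c * 1) = _
    rw [mul_one]
  refine ⟨fun t x => Γ t x 1, ?_, ?_, ?_⟩
  · exact ContDiff.comp (g := (ContinuousMap.evalCLM ℝ (1 : unitInterval) : C(unitInterval, E) →L[ℝ] E))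
      (ContinuousLinearMap.contDiff _) hΓs
  · intro x
    have h1 : pic W hW.continuous 0 x (Γ 0 x) 1 = Γ 0 x 1 := by rw [hΓ]
    show Γ 0 x 1 = x
    rw [← h1]
    show x + (0 : ℝ) • _ = x
    rw [zero_smul, add_zero]
  · intro t x
    have hsm : ContDiff ℝ ∞ (fun s => Γ s x 1) :=
      ContDiff.comp (g := (ContinuousMap.evalCLM ℝ (1 : unitInterval) : C(unitInterval, E) →L[ℝ] E))
        (ContinuousLinearMap.contDiff _)
        (hΓs.comp (contDiff_id.prodMk (contDiff_const (c := x))))
    have hne : ∀ t, t ≠ 0 → HasDerivAt (fun s => Γ s x 1) (W (Γ t x 1)) t := by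
      intro t ht
      set T : ℝ := 2 * t with hT
      have hT0 : T ≠ 0 := by simp [hT, ht]
      have htT : t / T = 1 / 2 := by rw [hT]; field_simp
      have hcont : Continuous (fun σ => ext01 (nem W hW.continuous (Γ T x)) σ) := ext01_cont _
      have h1 : HasDerivAt (fun s => x + T • ∫ σ in (0 : ℝ)..s / T, ext01 (nem W hW.continuous (Γ T x)) σ)
          (ext01 (nem W hW.continuous (Γ T x)) (t / T)) t := by
        have h2 : HasDerivAt (fun u => ∫ σ in (0 : ℝ)..u, ext01 (nem W hW.continuous (Γ T x)) σ)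
            (ext01 (nem W hW.continuous (Γ T x)) (t / T)) (t / T) :=
          intervalIntegral.integral_hasDerivAt_right (hcont.intervalIntegrable _ _)
            (hcont.stronglyMeasurableAtFilter _ _) hcont.continuousAt
        have h3 : HasDerivAt (fun s => s / T) (1 / T) t := (hasDerivAt_id t).div_const T
        have h4 := ((h2.scomp t h3).const_smul T).const_add x
        rw [smul_smul, mul_one_div_cancel hT0, one_smul] at h4
        exact h4
      have hev : (fun s => Γ s x 1) =ᶠ[𝓝 t] fun s => x + T • ∫ σ in (0 : ℝ)..s / T,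
          ext01 (nem W hW.continuous (Γ T x)) σ := by
        have h5 : ∀ᶠ s in 𝓝 t, s / T ∈ Ioo (0 : ℝ) 1 := by
          have : ContinuousAt (fun s => s / T) t := by fun_prop
          apply this.eventually
          show Ioo (0 : ℝ) 1 ∈ 𝓝 (t / T)
          rw [htT]
          exact Ioo_mem_nhds (by norm_num) (by norm_num)
        filter_upwards [h5] with s hs
        have hs' : s / T ∈ Icc (0 : ℝ) 1 := ⟨hs.1.le, hs.2.le⟩
        have h6 := hscale ⟨s / T, hs'⟩ T x
        have h7 : ((⟨s / T, hs'⟩ : unitInterval) : ℝ) * T = s := by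
          show s / T * T = s
          field_simp
        rw [h7] at h6
        rw [h6]
        have h8 : pic W hW.continuous T x (Γ T x) ⟨s / T, hs'⟩ = Γ T x ⟨s / T, hs'⟩ := by rw [hΓ]
        rw [← h8]
        rfl
      have h9 : W (Γ t x 1) = ext01 (nem W hW.continuous (Γ T x)) (t / T) := by
        have hm : t / T ∈ Icc (0 : ℝ) 1 := by rw [htT]; constructor <;> norm_num
        have h6 := hscale ⟨t / T, hm⟩ T x
        have h7 : ((⟨t / T, hm⟩ : unitInterval) : ℝ) * T = t := by
          show t / T * T = t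
          field_simp
        rw [h7] at h6
        rw [h6, ext01_nem]
        unfold ext01
        rw [Set.projIcc_of_mem zero_le_one hm]
      rw [h9]
      exact h1.congr_of_eventuallyEq hev
    by_cases ht : t = 0
    · have hd : Continuous (fun s => deriv (fun s => Γ s x 1) s - W (Γ s x 1)) :=
        (hsm.continuous_deriv (by simp)).sub (hW.continuous.comp hsm.continuous)
      have hz : (fun s => deriv (fun s => Γ s x 1) s - W (Γ s x 1)) = fun _ => 0 := by
        apply hd.ext_on (dense_compl_singleton (0 : ℝ)) continuous_const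
        intro s hs
        show deriv (fun s => Γ s x 1) s - W (Γ s x 1) = 0
        rw [(hne s hs).deriv, sub_self]
      have h0 : deriv (fun s => Γ s x 1) t - W (Γ t x 1) = 0 := congrFun hz t
      rw [← sub_eq_zero.1 h0]
      exact ((hsm.differentiable (by simp)) t).hasDerivAt
    · exact hne t ht

end Pool.Agent.Helper14.LK
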