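import Pool.Agent.Helper14.LK.St
import Pool.Agent.Helper14.LK.Basic

/-!
Project LK (MP_58b586_gt): module SPI.  The slow spiral `ι x = e^{iθ(|x|)} x`: a Lagrangian embedding,
standard at infinity, `(1 ± ε)`-bi-Lipschitz for any prescribed `ε`, whose tangent plane at `0` is vertical.
-/

set_option autoImplicit false

open scoped ContDiff Topology
open MeasureTheory Set Filter

namespace Pool.Agent.Helper14.LK

/-- the inequality `t (log t)² ≤ (t - 1)²` in symmetric form -/
private lemma log_ineq {a b : ℝ} (ha : 0 < a) (hb : 0 < b) :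
    (Real.log a - Real.log b) ^ 2 * (a * b) ≤ (a - b) ^ 2 := by
  -- log t ≤ (t - 1) / √t for t ≥ 1
  have h1 : ∀ s : ℝ, 1 ≤ s → 2 * Real.log s ≤ s - 1 / s := by
    intro s hs
    have hmono : MonotoneOn (fun s : ℝ => s - 1 / s - 2 * Real.log s) (Ici 1) := by
      apply monotoneOn_of_deriv_nonneg (convex_Ici 1)
      · apply ContinuousOn.sub
        · apply ContinuousOn.sub continuousOn_id
          apply ContinuousOn.div continuousOn_const continuousOn_id
          intro x hx
          have : (1 : ℝ) ≤ x := hx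
          show x ≠ 0
          linarith
        · apply ContinuousOn.mul continuousOn_const
          apply Real.continuousOn_log.mono
          intro x hx
          have : (1 : ℝ) ≤ x := hx
          exact ne_of_gt (by linarith)
      · intro x hx
        rw [interior_Ici] at hx
        have hx1 : (1 : ℝ) < x := hx
        have hx0 : x ≠ 0 := by linarith
        apply DifferentiableAt.differentiableWithinAt
        fun_prop (disch := exact hx0)
      · intro x hx
        rw [interior_Ici] at hx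
        have hx1 : (1 : ℝ) < x := hx
        have hx0 : x ≠ 0 := by linarith
        have h2 : HasDerivAt (fun s : ℝ => s - 1 / s - 2 * Real.log s)
            (1 - (-(x ^ 2)⁻¹) - 2 * x⁻¹) x := by
          have h3 : HasDerivAt (fun s : ℝ => 1 / s) (-(x ^ 2)⁻¹) x := by
            simpa [one_div] using hasDerivAt_inv hx0
          exact ((hasDerivAt_id x).sub h3).sub ((Real.hasDerivAt_log hx0).const_mul 2)
        rw [h2.deriv]
        have : 1 - (-(x ^ 2)⁻¹) - 2 * x⁻¹ = (1 - x⁻¹) ^ 2 := by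
          rw [← inv_pow]; ring
        rw [this]
        positivity
    have h4 := hmono (mem_Ici.2 le_rfl) (mem_Ici.2 hs) hs
    simp at h4
    have h5 : (1 : ℝ) / s = s⁻¹ := one_div s
    rw [h5]
    linarith
  have h6 : ∀ a b : ℝ, 0 < b → b ≤ a → (Real.log a - Real.log b) ^ 2 * (a * b) ≤ (a - b) ^ 2 := by
    intro a b hb hab
    have ha : 0 < a := lt_of_lt_of_le hb hab
    set s : ℝ := Real.sqrt (a / b) with hs
    have hab1 : 1 ≤ a / b := (one_le_div hb).2 hab
    have hs1 : 1 ≤ s := Real.one_le_sqrt.2 hab1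
    have hs2 : s ^ 2 = a / b := Real.sq_sqrt (by positivity)
    have h7 := h1 s hs1
    have h8 : Real.log a - Real.log b = 2 * Real.log s := by
      rw [← Real.log_div ha.ne' hb.ne', ← hs2, Real.log_pow]
      norm_num
    have h9 : 0 ≤ 2 * Real.log s := by
      have := Real.log_nonneg hs1
      linarith
    have h10 : (2 * Real.log s) ^ 2 ≤ (s - 1 / s) ^ 2 := by
      apply pow_le_pow_left₀ h9 h7
    rw [h8]
    have hs0 : s ≠ 0 := by linarith
    have ha' : a = s ^ 2 * b := by rw [hs2]; field_simp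
    calc (2 * Real.log s) ^ 2 * (a * b) ≤ (s - 1 / s) ^ 2 * (a * b) := by
          apply mul_le_mul_of_nonneg_right h10 (by positivity)
      _ = (a - b) ^ 2 := by
          rw [ha']
          field_simp
  rcases le_total b a with h | h
  · exact h6 a b hb h
  · have := h6 b a ha h
    calc (Real.log a - Real.log b) ^ 2 * (a * b) = (Real.log b - Real.log a) ^ 2 * (b * a) := by ring
      _ ≤ (b - a) ^ 2 := this
      _ = (a - b) ^ 2 := by ring


private lemma sT_lip : ∃ K : ℝ, 0 < K ∧ ∀ a b : ℝ,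
    |Real.smoothTransition a - Real.smoothTransition b| ≤ K * |a - b| := by
  have hc : ContDiff ℝ ∞ Real.smoothTransition := Real.smoothTransition.contDiff
  have hd : Continuous (deriv Real.smoothTransition) := hc.continuous_deriv (by simp)
  obtain ⟨C, hC⟩ := isCompact_Icc.exists_bound_of_continuousOn (s := Icc (0 : ℝ) 1) hd.continuousOn
  have hb : ∀ x, ‖deriv Real.smoothTransition x‖ ≤ max C 1 := by
    intro x
    by_cases hx : x ∈ Icc (0 : ℝ) 1
    · exact (hC x hx).trans (le_max_left _ _)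
    · have h0 : deriv Real.smoothTransition x = 0 := by
        rw [mem_Icc, not_and_or, not_le, not_le] at hx
        rcases hx with hx | hx
        · have : Real.smoothTransition =ᶠ[𝓝 x] fun _ => 0 := by
            filter_upwards [gt_mem_nhds hx] with y hy
            exact Real.smoothTransition.zero_of_nonpos hy.le
          rw [this.deriv_eq, deriv_const]
        · have : Real.smoothTransition =ᶠ[𝓝 x] fun _ => 1 := by
            filter_upwards [lt_mem_nhds hx] with y hy
            exact Real.smoothTransition.one_of_one_le hy.le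
          rw [this.deriv_eq, deriv_const]
      rw [h0, norm_zero]
      exact le_max_of_le_right zero_le_one
  refine ⟨max C 1, lt_max_of_lt_right one_pos, fun a b => ?_⟩
  have := (convex_univ : Convex ℝ (univ : Set ℝ)).norm_image_sub_le_of_norm_deriv_le
    (f := Real.smoothTransition) (fun x _ => (hc.differentiable (by simp)) x)
    (fun x _ => hb x) (mem_univ b) (mem_univ a)
  simpa [Real.norm_eq_abs] using this

private noncomputable def Th (M s : ℝ) : ℝ :=
  Real.pi / 2 * (1 - Real.smoothTransition (Real.log s / M))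

private lemma Th_one {M s : ℝ} (hM : 0 < M) (h0 : 0 ≤ s) (h1 : s ≤ 1) : Th M s = Real.pi / 2 := by
  unfold Th
  rw [Real.smoothTransition.zero_of_nonpos, sub_zero, mul_one]
  exact div_nonpos_of_nonpos_of_nonneg (Real.log_nonpos h0 h1) hM.le

private lemma Th_far {M s : ℝ} (hM : 0 < M) (h1 : Real.exp M ≤ s) : Th M s = 0 := by
  unfold Th
  rw [Real.smoothTransition.one_of_one_le, sub_self, mul_zero]
  rw [le_div_iff₀ hM, one_mul, Real.le_log_iff_exp_le (lt_of_lt_of_le (Real.exp_pos _) h1)]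
  exact h1

private lemma Th_contDiffAt {M s : ℝ} (hs : s ≠ 0) : ContDiffAt ℝ ∞ (Th M) s := by
  unfold Th
  have h1 : ContDiffAt ℝ ∞ (fun s => Real.log s / M) s :=
    (Real.contDiffAt_log.2 hs).div_const M
  exact contDiffAt_const.mul (contDiffAt_const.sub
    (Real.smoothTransition.contDiff.contDiffAt.comp s h1))

variable {n : ℕ}

private noncomputable def ph (M : ℝ) (x : EE n) : ℝ := Th M (‖x‖ ^ 2)

private lemma ph_near {M : ℝ} (hM : 0 < M) {x : EE n} (hx : ‖x‖ < 1) :
    ph M =ᶠ[𝓝 x] fun _ => Real.pi / 2 := by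
  have : ∀ᶠ y in 𝓝 x, ‖y‖ < 1 := continuous_norm.continuousAt.eventually (gt_mem_nhds hx)
  filter_upwards [this] with y hy
  unfold ph
  apply Th_one hM (by positivity)
  nlinarith [norm_nonneg y]

private lemma ph_smooth {M : ℝ} (hM : 0 < M) : ContDiff ℝ ∞ (ph M : EE n → ℝ) := by
  rw [contDiff_iff_contDiffAt]
  intro x
  by_cases hx : ‖x‖ < 1
  · exact contDiffAt_const.congr_of_eventuallyEq (ph_near hM hx)
  · have hx0 : ‖x‖ ^ 2 ≠ 0 := by
      have : 1 ≤ ‖x‖ := not_lt.1 hx
      positivity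
    exact (Th_contDiffAt hx0).comp x (contDiff_norm_sq ℝ).contDiffAt

private lemma ph_deriv {M : ℝ} (hM : 0 < M) (x : EE n) :
    ∃ c : ℝ, ∀ u, fderiv ℝ (ph M) x u = c * inner ℝ x u := by
  by_cases hx : ‖x‖ < 1
  · refine ⟨0, fun u => ?_⟩
    rw [(ph_near hM hx).fderiv_eq]
    simp
  · have hx0 : ‖x‖ ^ 2 ≠ 0 := by
      have : 1 ≤ ‖x‖ := not_lt.1 hx
      positivity
    refine ⟨deriv (Th M) (‖x‖ ^ 2) * 2, fun u => ?_⟩
    have h1 : HasDerivAt (Th M) (deriv (Th M) (‖x‖ ^ 2)) (‖x‖ ^ 2) :=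
      ((Th_contDiffAt (M := M) hx0).differentiableAt (by simp)).hasDerivAt
    have h2 : HasFDerivAt (fun x : EE n => ‖x‖ ^ 2) (2 • (innerSL ℝ x)) x :=
      (hasStrictFDerivAt_norm_sq x).hasFDerivAt
    have h3 : HasFDerivAt (ph M) (deriv (Th M) (‖x‖ ^ 2) • (2 • (innerSL ℝ x))) x :=
      h1.comp_hasFDerivAt x h2
    rw [h3.fderiv]
    simp
    ring

/-- the slow spiral -/
private noncomputable def sp (M : ℝ) (x : EE n) : WW n :=
  (Real.cos (ph M x) • x, Real.sin (ph M x) • x)

private lemma sp_smooth {M : ℝ} (hM : 0 < M) : ContDiff ℝ ∞ (sp M : EE n → WW n) :=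
  ((Real.contDiff_cos.comp (ph_smooth hM)).smul contDiff_id).prodMk
    ((Real.contDiff_sin.comp (ph_smooth hM)).smul contDiff_id)

private lemma sp_deriv {M : ℝ} (hM : 0 < M) (x u : EE n) :
    fderiv ℝ (sp M) x u =
      (Real.cos (ph M x) • u - (Real.sin (ph M x) * fderiv ℝ (ph M) x u) • x,
        Real.sin (ph M x) • u + (Real.cos (ph M x) * fderiv ℝ (ph M) x u) • x) := by
  have h1 : HasFDerivAt (ph M) (fderiv ℝ (ph M) x) x :=
    ((ph_smooth hM).differentiable (by simp) x).hasFDerivAt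
  have h2 := (Real.hasDerivAt_cos (ph M x)).comp_hasFDerivAt x h1
  have h3 := (Real.hasDerivAt_sin (ph M x)).comp_hasFDerivAt x h1
  have h4 := (h2.smul (hasFDerivAt_id x)).prodMk (h3.smul (hasFDerivAt_id x))
  have h5 : HasFDerivAt (sp M) _ x := h4
  rw [h5.fderiv]
  ext i
  · simp [smul_smul]
    ring
  · simp [smul_smul]

private lemma cos_bound (d : ℝ) : 0 ≤ 2 * (1 - Real.cos d) ∧ 2 * (1 - Real.cos d) ≤ d ^ 2 := by
  constructor
  · linarith [Real.cos_le_one d]
  · have := Real.one_sub_sq_div_two_le_cos (x := d)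
    linarith

private lemma sp_dist {M : ℝ} (a b : EE n) :
    nm (sp M a - sp M b) ^ 2 = ‖a - b‖ ^ 2 +
      2 * (1 - Real.cos (ph M a - ph M b)) * inner ℝ a b := by
  rw [nm_sq]
  unfold sp
  simp only [Prod.fst_sub, Prod.snd_sub]
  rw [norm_sub_sq_real, norm_sub_sq_real, norm_sub_sq_real, Real.cos_sub]
  simp only [norm_smul, real_inner_smul_left, real_inner_smul_right, mul_pow, Real.norm_eq_abs,
    sq_abs]
  have h1 := Real.cos_sq_add_sin_sq (ph M a)
  have h2 := Real.cos_sq_add_sin_sq (ph M b)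
  linear_combination (‖a‖ ^ 2) * h1 + (‖b‖ ^ 2) * h2

/-- Module SPI of project LK: the slow spiral is as close to an isometry as we like, and its tangent plane
at the origin is vertical. -/
theorem hSPI (n : ℕ) (ε : ℝ) (hε : 0 < ε) : ∃ ι : EE n → WW n, ContDiff ℝ ∞ ι ∧ Immersive ι ∧
    Isotropic ι ∧ StdInfty ι ∧
    (∀ a b, (1 - ε) * ‖a - b‖ ≤ nm (ι a - ι b) ∧ nm (ι a - ι b) ≤ (1 + ε) * ‖a - b‖) ∧
    ∀ u, fderiv ℝ ι 0 u = (0, u) := by
  obtain ⟨K, hK, hlip⟩ := sT_lip
  set e : ℝ := min ε 1 with he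
  have he0 : 0 < e := lt_min hε one_pos
  have he1 : e ≤ 1 := min_le_right _ _
  have heε : e ≤ ε := min_le_left _ _
  set M : ℝ := Real.pi * K / e with hMdef
  have hM : 0 < M := by positivity
  refine ⟨sp M, sp_smooth hM, ?_, ?_, ?_, ?_, ?_⟩
  · intro x u hu
    have h1 : nm (fderiv ℝ (sp M) x u) ^ 2 = ‖u‖ ^ 2 + (fderiv ℝ (ph M) x u) ^ 2 * ‖x‖ ^ 2 := by
      rw [nm_sq, sp_deriv hM]
      simp only
      rw [norm_sub_sq_real, norm_add_sq_real]
      simp only [norm_smul, real_inner_smul_left, real_inner_smul_right, mul_pow, Real.norm_eq_abs,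
        sq_abs, abs_mul]
      have h1 := Real.cos_sq_add_sin_sq (ph M x)
      linear_combination (‖u‖ ^ 2 + (fderiv ℝ (ph M) x u) ^ 2 * ‖x‖ ^ 2) * h1
    rw [hu] at h1
    have h2 : nm (0 : WW n) = 0 := by simp [nm]
    rw [h2] at h1
    have h3 : ‖u‖ ^ 2 = 0 := by
      have : 0 ≤ (fderiv ℝ (ph M) x u) ^ 2 * ‖x‖ ^ 2 := by positivity
      have h4 : 0 ≤ ‖u‖ ^ 2 := by positivity
      nlinarith
    exact norm_eq_zero.1 (pow_eq_zero_iff (two_ne_zero) |>.1 h3)
  · intro x u v
    obtain ⟨c, hc⟩ := ph_deriv (M := M) hM x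
    rw [sp_deriv hM, sp_deriv hM, hc, hc]
    unfold om
    simp only [inner_sub_left, inner_add_left, inner_sub_right, inner_add_right,
      real_inner_smul_left, real_inner_smul_right]
    have h1 := Real.cos_sq_add_sin_sq (ph M x)
    have h2 : inner ℝ u x = inner ℝ x u := real_inner_comm _ _
    rw [h2]
    ring
  · refine ⟨Real.exp M, fun x hx => ?_⟩
    have h1 : Real.exp M ≤ ‖x‖ ^ 2 := by
      have h2 : 1 ≤ Real.exp M := Real.one_le_exp hM.le
      nlinarith
    have h3 : ph M x = 0 := Th_far hM h1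
    unfold sp
    rw [h3]
    simp
  · intro a b
    have hkey : |nm (sp M a - sp M b) ^ 2 - ‖a - b‖ ^ 2| ≤ e ^ 2 * ‖a - b‖ ^ 2 := by
      rw [sp_dist, add_sub_cancel_left, abs_mul]
      obtain ⟨hc0, hc1⟩ := cos_bound (ph M a - ph M b)
      rw [abs_of_nonneg hc0]
      by_cases ha : a = 0
      · subst ha; simp; positivity
      by_cases hb : b = 0
      · subst hb; simp; positivity
      have ha' : 0 < ‖a‖ := norm_pos_iff.2 ha
      have hb' : 0 < ‖b‖ := norm_pos_iff.2 hb
      have h1 : |ph M a - ph M b| ≤ e * |Real.log ‖a‖ - Real.log ‖b‖| := by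
        unfold ph Th
        rw [← mul_sub, abs_mul, abs_of_pos (by positivity : (0 : ℝ) < Real.pi / 2)]
        have h2 : |1 - Real.smoothTransition (Real.log (‖a‖ ^ 2) / M) -
            (1 - Real.smoothTransition (Real.log (‖b‖ ^ 2) / M))| ≤
            K * |Real.log (‖b‖ ^ 2) / M - Real.log (‖a‖ ^ 2) / M| := by
          rw [sub_sub_sub_cancel_left]
          exact hlip _ _
        refine (mul_le_mul_of_nonneg_left h2 (by positivity)).trans (le_of_eq ?_)
        rw [← sub_div, abs_div, abs_of_pos hM, Real.log_pow, Real.log_pow, ← mul_sub, abs_mul,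
          abs_sub_comm (Real.log ‖b‖), hMdef]
        push_cast
        rw [abs_of_pos (by norm_num : (0 : ℝ) < 2)]
        field_simp
      have h2 : (ph M a - ph M b) ^ 2 ≤ e ^ 2 * (Real.log ‖a‖ - Real.log ‖b‖) ^ 2 := by
        rw [← sq_abs (ph M a - ph M b), ← sq_abs (Real.log ‖a‖ - Real.log ‖b‖), ← mul_pow]
        exact pow_le_pow_left₀ (abs_nonneg _) h1 2
      have h3 : |inner ℝ a b| ≤ ‖a‖ * ‖b‖ := abs_real_inner_le_norm a b
      have h4 : (‖a‖ - ‖b‖) ^ 2 ≤ ‖a - b‖ ^ 2 := by
        rw [← sq_abs (‖a‖ - ‖b‖)]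
        exact pow_le_pow_left₀ (abs_nonneg _) (abs_norm_sub_norm_le a b) 2
      calc 2 * (1 - Real.cos (ph M a - ph M b)) * |inner ℝ a b|
          ≤ (ph M a - ph M b) ^ 2 * (‖a‖ * ‖b‖) := by
            apply mul_le_mul hc1 h3 (abs_nonneg _) (by positivity)
        _ ≤ (e ^ 2 * (Real.log ‖a‖ - Real.log ‖b‖) ^ 2) * (‖a‖ * ‖b‖) := by
            apply mul_le_mul_of_nonneg_right h2 (by positivity)
        _ = e ^ 2 * ((Real.log ‖a‖ - Real.log ‖b‖) ^ 2 * (‖a‖ * ‖b‖)) := by ring
        _ ≤ e ^ 2 * (‖a‖ - ‖b‖) ^ 2 := by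
            apply mul_le_mul_of_nonneg_left (log_ineq ha' hb') (by positivity)
        _ ≤ e ^ 2 * ‖a - b‖ ^ 2 := by
            apply mul_le_mul_of_nonneg_left h4 (by positivity)
    rw [abs_le] at hkey
    have hn := nm_nonneg (sp M a - sp M b)
    have hd := norm_nonneg (a - b)
    have he2 : e ^ 2 ≤ e := by nlinarith
    constructor
    · have h1 : (1 - e) * ‖a - b‖ ≤ nm (sp M a - sp M b) := by
        apply le_of_sq_le_sq _ hn
        have h5 : ((1 - e) * ‖a - b‖) ^ 2 = (1 - e) ^ 2 * ‖a - b‖ ^ 2 := by ring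
        rw [h5]
        have h6 : (1 - e) ^ 2 ≤ 1 - e ^ 2 := by nlinarith
        have h7 : (1 - e) ^ 2 * ‖a - b‖ ^ 2 ≤ (1 - e ^ 2) * ‖a - b‖ ^ 2 :=
          mul_le_mul_of_nonneg_right h6 (by positivity)
        linarith [hkey.1]
      refine le_trans ?_ h1
      apply mul_le_mul_of_nonneg_right _ hd
      linarith
    · have h1 : nm (sp M a - sp M b) ≤ (1 + e) * ‖a - b‖ := by
        apply le_of_sq_le_sq _ (by positivity)
        have h5 : ((1 + e) * ‖a - b‖) ^ 2 = (1 + e) ^ 2 * ‖a - b‖ ^ 2 := by ring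
        rw [h5]
        have h6 : 1 + e ^ 2 ≤ (1 + e) ^ 2 := by nlinarith
        have h7 : (1 + e ^ 2) * ‖a - b‖ ^ 2 ≤ (1 + e) ^ 2 * ‖a - b‖ ^ 2 :=
          mul_le_mul_of_nonneg_right h6 (by positivity)
        linarith [hkey.2]
      refine h1.trans ?_
      apply mul_le_mul_of_nonneg_right _ hd
      linarith
  · intro u
    rw [sp_deriv hM]
    have h1 : ph M (0 : EE n) = Real.pi / 2 := (ph_near hM (by simp)).self_of_nhds
    have h2 : fderiv ℝ (ph M) (0 : EE n) u = 0 := by
      rw [(ph_near hM (by simp)).fderiv_eq]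
      simp
    rw [h1, h2]
    simp

end Pool.Agent.Helper14.LK
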